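import Mathlib

/-!
# A point with transcendental first coordinate has infinite order
-/

set_option autoImplicit false

namespace Pool.Agent.TH958.FP

open Polynomial WeierstrassCurve WeierstrassCurve.Affine

variable {F K : Type} [Field F] [Field K] [Algebra F K] [CharZero F]

/-- The numerator for the double of a point. -/
noncomputable def dN (a b : F) (N D : F[X]) : F[X] :=
  N ^ 4 + (-C (2 * a) * N ^ 2 * D ^ 2 - C (8 * b) * N * D ^ 3 + C (a ^ 2) * D ^ 4)

/-- `X³ + aX + b`, homogenised. -/
noncomputable def dM (a b : F) (N D : F[X]) : F[X] :=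
  N ^ 3 + (C a * N * D ^ 2 + C b * D ^ 3)

/-- The denominator for the double of a point. -/
noncomputable def dD (a b : F) (N D : F[X]) : F[X] := C 4 * (D * dM a b N D)

/-- The pairs of polynomials for the multiples by `2 ^ n`. -/
structure Good (n : ℕ) (N D : F[X]) : Prop where
  monic : N.Monic
  deg : N.natDegree = 4 ^ n
  degD : D.natDegree + 1 = 4 ^ n
  lc : D.leadingCoeff = 4 ^ n

omit [CharZero F] in
lemma natDegree_pow_mul_pow_le (c : F) (N D : F[X]) (i j : ℕ) :
    (C c * N ^ i * D ^ j).natDegree ≤ i * N.natDegree + j * D.natDegree := by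
  refine natDegree_mul_le.trans (add_le_add ?_ natDegree_pow_le)
  refine (natDegree_mul_le).trans ?_
  rw [natDegree_C, zero_add]
  exact natDegree_pow_le

omit [CharZero F] in
lemma Good.monicM {n : ℕ} {N D : F[X]} (h : Good n N D) (a b : F) : (dM a b N D).Monic ∧
    (dM a b N D).natDegree = 3 * 4 ^ n := by
  have h0 : 0 < 4 ^ n := by positivity
  have hN3 : (N ^ 3).Monic := h.monic.pow 3
  have hd : (N ^ 3).natDegree = 3 * 4 ^ n := by rw [h.monic.natDegree_pow, h.deg]
  have h1 : (C a * N * D ^ 2 + C b * D ^ 3).natDegree < (N ^ 3).natDegree := by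
    rw [hd]
    refine (natDegree_add_le _ _).trans_lt (max_lt ?_ ?_)
    · have h2 := natDegree_pow_mul_pow_le a N D 1 2
      rw [pow_one] at h2
      have := h.deg
      have := h.degD
      omega
    · have h2 := natDegree_pow_mul_pow_le b N D 0 3
      rw [pow_zero, mul_one] at h2
      have := h.degD
      omega
  refine ⟨?_, ?_⟩
  · unfold dM
    exact hN3.add_of_left (degree_lt_degree h1)
  · unfold dM
    rw [natDegree_add_eq_left_of_natDegree_lt h1, hd]

lemma Good.double {n : ℕ} {N D : F[X]} (h : Good n N D) (a b : F) :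
    Good (n + 1) (dN a b N D) (dD a b N D) := by
  have h0 : 0 < 4 ^ n := by positivity
  obtain ⟨hM, hMd⟩ := h.monicM a b
  have hN4 : (N ^ 4).Monic := h.monic.pow 4
  have hd : (N ^ 4).natDegree = 4 * 4 ^ n := by rw [h.monic.natDegree_pow, h.deg]
  have h1 : (-C (2 * a) * N ^ 2 * D ^ 2 - C (8 * b) * N * D ^ 3 +
      C (a ^ 2) * D ^ 4).natDegree < (N ^ 4).natDegree := by
    rw [hd]
    refine (natDegree_add_le _ _).trans_lt (max_lt ((natDegree_sub_le _ _).trans_lt
      (max_lt ?_ ?_)) ?_)
    · have h2 := natDegree_pow_mul_pow_le (-(2 * a)) N D 2 2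
      rw [C_neg] at h2
      have := h.deg
      have := h.degD
      omega
    · have h2 := natDegree_pow_mul_pow_le (8 * b) N D 1 3
      rw [pow_one] at h2
      have := h.deg
      have := h.degD
      omega
    · have h2 := natDegree_pow_mul_pow_le (a ^ 2) N D 0 4
      rw [pow_zero, mul_one] at h2
      have := h.degD
      omega
  have h4 : (4 : F) ≠ 0 := by norm_num
  have hD0 : D ≠ 0 := by
    intro hD
    have := h.lc
    rw [hD, leadingCoeff_zero] at this
    exact (pow_ne_zero n h4) this.symm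
  refine ⟨?_, ?_, ?_, ?_⟩
  · unfold dN
    exact hN4.add_of_left (degree_lt_degree h1)
  · unfold dN
    rw [natDegree_add_eq_left_of_natDegree_lt h1, hd]
    ring
  · unfold dD
    rw [natDegree_C_mul h4, natDegree_mul hD0 hM.ne_zero, hMd]
    have := h.degD
    rw [pow_succ]
    omega
  · unfold dD
    rw [leadingCoeff_mul, leadingCoeff_C, leadingCoeff_mul, hM.leadingCoeff, h.lc, mul_one,
      pow_succ]
    ring

variable [DecidableEq K]

/-- The multiples by `2 ^ n`. -/
lemma exists_multiple {W : WeierstrassCurve K} {a b : F} (h1 : W.a₁ = 0) (h2 : W.a₂ = 0)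
    (h3 : W.a₃ = 0) (h4 : W.a₄ = algebraMap F K a) (h6 : W.a₆ = algebraMap F K b) {x y : K}
    (hx : Transcendental F x) (h : W.toAffine.Nonsingular x y) (n : ℕ) :
    ∃ N D : F[X], Good n N D ∧ ∃ (X Y : K) (hXY : W.toAffine.Nonsingular X Y),
      2 ^ n • (Point.some _ _ h : W.toAffine.Point) = Point.some _ _ hXY ∧
        X * aeval x D = aeval x N := by
  induction n with
  | zero =>
    refine ⟨X, 1, ⟨monic_X, by simp, by simp, by simp⟩, x, y, h, by simp, by simp⟩
  | succ n ih =>
    obtain ⟨N, D, hg, X, Y, hXY, hP, hX⟩ := ih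
    refine ⟨dN a b N D, dD a b N D, hg.double a b, ?_⟩
    have hinj := transcendental_iff_injective.1 hx
    have hD' := hg.double a b
    have h4' : (4 : F) ≠ 0 := by norm_num
    have hchar : CharZero K := charZero_of_injective_algebraMap (algebraMap F K).injective
    have hD0 : aeval x D ≠ 0 := by
      rw [Ne, ← map_zero (aeval x : F[X] →ₐ[F] K)]
      intro h0
      have h5 := hg.lc
      rw [hinj h0, leadingCoeff_zero] at h5
      exact (pow_ne_zero n h4') h5.symm
    have hM0 : aeval x (dM a b N D) ≠ 0 := by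
      rw [Ne, ← map_zero (aeval x : F[X] →ₐ[F] K)]
      intro h0
      exact (hg.monicM a b).1.ne_zero (hinj h0)
    have heq : Y ^ 2 = X ^ 3 + algebraMap F K a * X + algebraMap F K b := by
      have := (WeierstrassCurve.Affine.equation_iff _ _).1 hXY.1
      rw [h1, h2, h3, h4, h6] at this
      linear_combination this
    have hYM : Y ^ 2 * aeval x D ^ 3 = aeval x (dM a b N D) := by
      rw [heq, dM]
      simp only [map_add, map_mul, map_pow, aeval_C]
      rw [← hX]
      ring
    have hY0 : Y ≠ 0 := by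
      rintro rfl
      apply hM0
      rw [← hYM]
      ring
    have hneg : W.toAffine.negY X Y = -Y := by
      rw [WeierstrassCurve.Affine.negY, h1, h3]
      ring
    have hne : Y ≠ W.toAffine.negY X Y := by
      rw [hneg]
      intro h5
      apply hY0
      have h6' : (2 : K) * Y = 0 := by linear_combination h5
      exact (mul_eq_zero.1 h6').resolve_left two_ne_zero
    have hdouble : 2 ^ (n + 1) • (Point.some _ _ h : W.toAffine.Point) =
        Point.some _ _ (nonsingular_add hXY hXY fun hxy => hne hxy.right) := by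
      rw [pow_succ, mul_comm, mul_smul, hP, two_smul, Point.add_self_of_Y_ne hne]
    refine ⟨_, _, _, hdouble, ?_⟩
    rw [WeierstrassCurve.Affine.addX, WeierstrassCurve.Affine.slope_of_Y_ne rfl hne, hneg, h1, h2, h4]
    have h2K : (2 : K) ≠ 0 := two_ne_zero
    have hDD : aeval x (dD a b N D) = 4 * (aeval x D * (Y ^ 2 * aeval x D ^ 3)) := by
      rw [hYM, dD]
      simp only [map_mul, aeval_C]
      rw [map_ofNat]
    have hNN : aeval x (dN a b N D) = (X ^ 4 - 2 * algebraMap F K a * X ^ 2 -
        8 * algebraMap F K b * X + algebraMap F K a ^ 2) * aeval x D ^ 4 := by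
      rw [dN]
      simp only [map_add, map_sub, map_neg, map_mul, map_pow, aeval_C, map_ofNat]
      rw [← hX]
      ring
    rw [hDD, hNN]
    have hkey : ((3 * X ^ 2 + 2 * 0 * X + algebraMap F K a - 0 * Y) / (Y - -Y)) ^ 2 *
        (4 * Y ^ 2) = (3 * X ^ 2 + algebraMap F K a) ^ 2 := by
      have hYY : Y - -Y = 2 * Y := by ring
      rw [hYY]
      field_simp
      ring
    linear_combination (aeval x D ^ 4) * hkey - 8 * X * aeval x D ^ 4 * heq

/-- A point with transcendental first coordinate has infinite order. -/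
theorem nontorsion {W : WeierstrassCurve K} {a b : F} (h1 : W.a₁ = 0) (h2 : W.a₂ = 0)
    (h3 : W.a₃ = 0) (h4 : W.a₄ = algebraMap F K a) (h6 : W.a₆ = algebraMap F K b) {x y : K}
    (hx : Transcendental F x) (h : W.toAffine.Nonsingular x y) (n : ℤ) (hn : n ≠ 0) :
    n • (Point.some _ _ h : W.toAffine.Point) ≠ 0 := by
  intro h0
  set P : W.toAffine.Point := Point.some _ _ h with hP
  have hfin : IsOfFinAddOrder P := isOfFinAddOrder_iff_zsmul_eq_zero.2 ⟨n, hn, h0⟩
  have hf : Finite (AddSubmonoid.multiples P) := hfin.finite_multiples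
  obtain ⟨i, j, hij, heq⟩ := Finite.exists_ne_map_eq_of_infinite
    (fun k : ℕ => (⟨2 ^ k • P, ⟨2 ^ k, rfl⟩⟩ : AddSubmonoid.multiples P))
  have heq' : 2 ^ i • P = 2 ^ j • P := congrArg Subtype.val heq
  obtain ⟨N, D, hg, X, Y, hXY, hP1, hX1⟩ := exists_multiple h1 h2 h3 h4 h6 hx h i
  obtain ⟨N', D', hg', X', Y', hXY', hP1', hX1'⟩ := exists_multiple h1 h2 h3 h4 h6 hx h j
  rw [hP, hP1, hP1', Point.some.injEq] at heq'
  obtain ⟨hXX, -⟩ := heq'
  have hinj := transcendental_iff_injective.1 hx
  have h5 : N * D' = N' * D := by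
    apply hinj
    rw [map_mul, map_mul, ← hX1, ← hX1', hXX]
    ring
  have h7 := congrArg leadingCoeff h5
  rw [leadingCoeff_mul, leadingCoeff_mul, hg.monic.leadingCoeff, hg'.monic.leadingCoeff, one_mul,
    one_mul, hg.lc, hg'.lc] at h7
  have h8 : (4 : ℕ) ^ j = 4 ^ i := by exact_mod_cast h7
  exact hij (Nat.pow_right_injective (by norm_num : 2 ≤ 4) h8).symm

end Pool.Agent.TH958.FP
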