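import Pool.Agent.TH958.FP.Gen2
import Pool.Agent.TH958.FP.NonTors

/-!
# Transfer of points along field extensions
-/

set_option autoImplicit false

namespace Pool.Agent.TH958.FP

open Polynomial WeierstrassCurve WeierstrassCurve.Affine

/-- The map on points induced by a homomorphism of fields. -/
noncomputable def pmap {F K : Type} [Field F] [Field K] [DecidableEq F] [DecidableEq K]
    (f : F →+* K) (W : WeierstrassCurve F) : W.toAffine.Point →+ (W.map f).toAffine.Point where
  toFun P := match P with
    | 0 => 0
    | Point.some _ _ h => Point.some _ _ <| (W.toAffine.map_nonsingular f.injective ..).mpr h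
  map_zero' := rfl
  map_add' := by
    rintro (_ | ⟨x₁, y₁, h₁⟩) (_ | ⟨x₂, y₂, h₂⟩)
    any_goals rfl
    by_cases hxy : x₁ = x₂ ∧ y₁ = W.toAffine.negY x₂ y₂
    · rw [Point.add_of_Y_eq hxy.left hxy.right,
        Point.add_of_Y_eq (congr_arg _ hxy.left) <| by rw [hxy.right, map_negY]]
    · simpa only [Point.add_some hxy, ← map_addX, ← map_addY, ← map_slope] using!
        (Point.add_some fun h ↦ hxy ⟨f.injective h.1, f.injective (WeierstrassCurve.Affine.map_negY (W' := W) f .. ▸ h).2⟩).symm

lemma pmap_some {F K : Type} [Field F] [Field K] [DecidableEq F] [DecidableEq K]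
    (f : F →+* K) (W : WeierstrassCurve F) {x y : F} (h : W.toAffine.Nonsingular x y) :
    pmap f W (Point.some _ _ h) =
      Point.some _ _ ((W.toAffine.map_nonsingular f.injective ..).mpr h) := rfl

section
variable {F V : Type} [Field F] [Field V] [Algebra F V]

/-- A quadratic polynomial without roots in `F` has no roots in `F(y)`. -/
lemma no_root [Infinite F] {y : V} (hy : Transcendental F y)
    (hgen : ∀ v : V, ∃ p d : F[X], aeval y d ≠ 0 ∧ v * aeval y d = aeval y p) (t c : F)
    (hF : ∀ f : F, f ^ 2 + t * f + c ≠ 0) (z : V) :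
    z ^ 2 + algebraMap F V t * z + algebraMap F V c ≠ 0 := by
  intro hz
  obtain ⟨p, d, hd, hv⟩ := hgen z
  have h1 : p ^ 2 + C t * p * d + C c * d ^ 2 = 0 := by
    apply transcendental_iff_injective.1 hy
    simp only [map_add, map_mul, map_pow, aeval_C, map_zero]
    rw [← hv]
    linear_combination (aeval y d) ^ 2 * hz
  have hd0 : d ≠ 0 := by
    rintro rfl
    exact hd (map_zero _)
  obtain ⟨e, he⟩ : ∃ e : F, d.eval e ≠ 0 := by
    by_contra hcon
    push Not at hcon
    exact hd0 (Polynomial.funext fun r => by rw [hcon r, eval_zero])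
  refine hF (p.eval e / d.eval e) ?_
  have h2 := congrArg (Polynomial.eval e) h1
  simp only [eval_add, eval_mul, eval_pow, eval_C, eval_zero] at h2
  field_simp
  linear_combination h2

end

section
variable {F K : Type} [Field F] [Field K] [Algebra F K]

lemma WV_map (α t : F) (L : Type) [Field L] [Algebra F L] (f : L →ₐ[F] K) (y : L) :
    (WV α t y).map (f : L →+* K) = WV α t (f y) := by
  rw [WV, WV, WeierstrassCurve.map_map]
  congr 1
  apply Polynomial.ringHom_ext
  · intro c
    rw [RingHom.comp_apply, fy_C, fy_C]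
    exact f.commutes c
  · rw [RingHom.comp_apply, fy_X, fy_X]
    rfl

/-- Points over `K` with coordinates in `F(y)` are multiples of the tautological point. -/
theorem gen_transfer [Infinite F] [DecidableEq K] (h2 : (2 : F) ≠ 0) (y : K)
    (hy : Transcendental F y) (α t : F)
    (hF : ∀ f : F, f ^ 2 + t * f + (t ^ 2 + α) ≠ 0) (W : WeierstrassCurve K)
    (hW : W = WV α t y) {X Y : K} (hX : X ∈ IntermediateField.adjoin F {y})
    (hY : Y ∈ IntermediateField.adjoin F {y}) (h : W.toAffine.Nonsingular X Y)
    (h0 : W.toAffine.Nonsingular (algebraMap F K t) y) :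
    ∃ n : ℤ, (Point.some _ _ h : W.toAffine.Point) = n • Point.some _ _ h0 := by
  classical
  set L := IntermediateField.adjoin F {y} with hL
  set y' : L := ⟨y, IntermediateField.mem_adjoin_simple_self F y⟩ with hy'
  have hty : Transcendental F y' := by
    intro halg
    exact hy (halg.algebraMap (A := K))
  have hgen : ∀ v : L, ∃ p d : F[X], aeval y' d ≠ 0 ∧ v * aeval y' d = aeval y' p := by
    rintro ⟨v, hv⟩
    obtain ⟨p, d, hpd⟩ := IntermediateField.mem_adjoin_simple_iff F v |>.1 hv
    have e : ∀ q : F[X], ((aeval y' q : L) : K) = aeval y q := by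
      intro q
      exact (Polynomial.aeval_algebraMap_apply K y' q).symm
    by_cases hd : aeval y d = 0
    · refine ⟨0, 1, by simp, ?_⟩
      apply Subtype.ext
      rw [hd, div_zero] at hpd
      simp [hpd]
    · refine ⟨p, d, ?_, ?_⟩
      · intro h3
        apply hd
        rw [← e, h3]
        rfl
      · apply Subtype.ext
        change v * ((aeval y' d : L) : K) = ((aeval y' p : L) : K)
        rw [e, e, hpd]
        field_simp
  have hroot : ∀ z : L, z ^ 2 + algebraMap F L t * z + (algebraMap F L t ^ 2 + algebraMap F L α) ≠ 0 := by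
    intro z
    have := no_root hty hgen t (t ^ 2 + α) hF z
    rwa [map_add, map_pow] at this
  have hWL : W = (WV α t y').map (algebraMap L K) := by
    rw [hW]
    exact (WV_map α t L L.val y').symm
  subst hWL
  have hns : (WV α t y').toAffine.Nonsingular (⟨X, hX⟩ : L) (⟨Y, hY⟩ : L) :=
    ((WV α t y').toAffine.map_nonsingular (algebraMap L K).injective _ _).1 h
  obtain ⟨n, hn⟩ := generated h2 hty hgen hroot (Point.some _ _ hns)
  refine ⟨n, ?_⟩
  have h5 := congrArg (pmap (algebraMap L K) (WV α t y')) hn
  rw [map_zsmul, pmap_some, pmap_some] at h5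
  exact h5

end

end Pool.Agent.TH958.FP
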