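import Pool.Agent.TH958.FP.Spec
import Pool.Agent.H126G.RankG

/-!
# No points on the twists by products of at least two of the `w_i`
-/

set_option autoImplicit false

namespace Pool.Agent.TH958.FP

open Finset MvPolynomial
open Pool.Agent.H126R3 (slice slice_X_self slice_X_ne slice_C cubicDisc)

section
variable {τ : Type} [DecidableEq τ] {r : ℕ} (a : MvPolynomial τ ℤ) (i : Fin r)

/-- The variables other than `x_i`. -/
abbrev VR (τ : Type) {r : ℕ} (i : Fin r) : Type :=
  {j : Option (τ ⊕ Fin r) // j ≠ some (Sum.inr i)}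

/-- `B` as one of the other variables -/
def vB (τ : Type) {r : ℕ} (i : Fin r) : VR τ i := ⟨none, by simp⟩

/-- `u_t` as one of the other variables -/
def vU (i : Fin r) (t : τ) : VR τ i := ⟨some (Sum.inl t), by simp⟩

/-- The coefficient `a(u)`. -/
noncomputable def aR : MvPolynomial (VR τ i) ℤ := rename (vU i) a

/-- The variables other than `x_i` and `B`. -/
abbrev VR' (τ : Type) {r : ℕ} (i : Fin r) : Type := {k : VR τ i // k ≠ vB τ i}

/-- `u_t` -/
def vU' (i : Fin r) (t : τ) : VR' τ i := ⟨vU i t, by simp [vU, vB]⟩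

/-- The coefficient `a(u)`. -/
noncomputable def aR' : MvPolynomial (VR' τ i) ℤ := rename (vU' i) a

lemma slice_a : slice (some (Sum.inr i)) (aP a : PP τ r) = Polynomial.C (aR a i) := by
  rw [aP, aR]
  induction a using MvPolynomial.induction_on with
  | C a => rw [rename_C, rename_C, slice_C]
  | add p q hp hq => rw [map_add, map_add, hp, hq, map_add, map_add]
  | mul_X p t hp =>
    rw [map_mul, map_mul, hp, rename_X, map_mul, rename_X, map_mul,
      slice_X_ne _ (some (Sum.inl t)) (by simp)]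
    rfl

lemma slice_B : slice (some (Sum.inr i)) (BP : PP τ r) = Polynomial.C (X (vB τ i)) := by
  rw [BP, slice_X_ne _ none (by simp)]
  rfl

lemma slice_a' : slice (vB τ i) (aR a i) = Polynomial.C (aR' a i) := by
  rw [aR', aR]
  induction a using MvPolynomial.induction_on with
  | C a => rw [rename_C, rename_C, slice_C]
  | add p q hp hq => rw [map_add, map_add, hp, hq, map_add, map_add]
  | mul_X p t hp =>
    rw [map_mul, map_mul, hp, rename_X, map_mul, rename_X, map_mul,
      slice_X_ne _ (vU i t) (by simp [vU, vB])]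
    rfl

/-- `x_j` for `j ≠ i` as one of the other variables -/
def vX {i : Fin r} (j : Fin r) (h : j ≠ i) : VR τ i := ⟨some (Sum.inr j), by simpa using h⟩

lemma vX_ne {i : Fin r} (j : Fin r) (h : j ≠ i) : (vX j h : VR τ i) ≠ vB τ i := by
  simp [vX, vB]

/-- `w_j` for `j ≠ i` -/
noncomputable def wR {i : Fin r} (j : Fin r) (h : j ≠ i) : MvPolynomial (VR τ i) ℤ :=
  X (vX j h) ^ 3 + aR a i * X (vX j h) + X (vB τ i)

/-- `x_j³ + a x_j` for `j ≠ i` -/
noncomputable def bR {i : Fin r} (j : Fin r) (h : j ≠ i) : MvPolynomial (VR' τ i) ℤ :=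
  X ⟨vX j h, vX_ne j h⟩ ^ 3 + aR' a i * X ⟨vX j h, vX_ne j h⟩

lemma slice_w {i : Fin r} (j : Fin r) (h : j ≠ i) :
    slice (some (Sum.inr i)) (wP a j : PP τ r) = Polynomial.C (wR a j h) := by
  rw [wP, xP, map_add, map_add, map_mul, map_pow, slice_a, slice_B,
    slice_X_ne _ (some (Sum.inr j)) (by simpa using h), wR, map_add, map_add, map_mul, map_pow]
  rfl

lemma slice_w_self : slice (some (Sum.inr i)) (wP a i : PP τ r) =
    Polynomial.X ^ 3 + Polynomial.C (aR a i) * Polynomial.X + Polynomial.C (X (vB τ i)) := by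
  rw [wP, xP, map_add, map_add, map_mul, map_pow, slice_a, slice_B, slice_X_self]

lemma slice_w' {i : Fin r} (j : Fin r) (h : j ≠ i) :
    slice (vB τ i) (wR a j h) = Polynomial.X - Polynomial.C (-bR a j h) := by
  rw [wR, map_add, map_add, map_mul, map_pow, slice_a', slice_X_self,
    slice_X_ne _ (vX j h) (vX_ne j h), bR, map_neg, map_add, map_mul, map_pow]
  ring

/-- the substitution `x_k ↦ 0` for `k ≠ j` -/
noncomputable def subJ (τ : Type) {r : ℕ} (i j : Fin r) :
    MvPolynomial (VR' τ i) ℤ →ₐ[ℤ] Polynomial (MvPolynomial τ ℤ) :=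
  aeval (fun k => Option.elim k.1.1 0
    (Sum.elim (fun t => Polynomial.C (X t)) (fun k => if k = j then Polynomial.X else 0)))

omit [DecidableEq τ] in
lemma subJ_a (j : Fin r) : subJ τ i j (aR' a i) = Polynomial.C a := by
  rw [subJ, aR', aeval_rename]
  have h : (fun k : VR' τ i => Option.elim k.1.1 0
    (Sum.elim (fun t => (Polynomial.C (X t) : Polynomial (MvPolynomial τ ℤ)))
      (fun k => if k = j then Polynomial.X else 0))) ∘ vU' i = fun t => Polynomial.C (X t) := rfl
  rw [h]
  induction a using MvPolynomial.induction_on with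
  | C a => simp
  | add p q hp hq => rw [map_add, hp, hq, map_add]
  | mul_X p i hp => rw [map_mul, hp, aeval_X, map_mul]

lemma subJ_x (j k : Fin r) (h : k ≠ i) : subJ τ i j (X ⟨vX k h, vX_ne k h⟩) =
    if k = j then Polynomial.X else 0 := by
  rw [subJ, aeval_X]
  rfl

lemma subJ_b (j k : Fin r) (h : k ≠ i) : subJ τ i j (bR a k h) =
    if k = j then Polynomial.X ^ 3 + Polynomial.C a * Polynomial.X else 0 := by
  rw [bR, map_add, map_mul, map_pow, subJ_x, subJ_a]
  split_ifs
  · rfl
  · rw [mul_zero, zero_pow three_ne_zero, add_zero]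

lemma wR_dvd {i : Fin r} (j : Fin r) (h : j ≠ i) (f : MvPolynomial (VR τ i) ℤ) :
    wR a j h ∣ f ↔ (slice (vB τ i) f).eval (-bR a j h) = 0 := by
  rw [← map_dvd_iff (slice (vB τ i)), slice_w', Polynomial.dvd_iff_isRoot]
  rfl

lemma wR_prime {i : Fin r} (j : Fin r) (h : j ≠ i) : Prime (wR a j h) := by
  rw [← MulEquiv.prime_iff (slice (vB τ i)), slice_w']
  exact Polynomial.prime_X_sub_C _

lemma wR_not_dvd_wR {i : Fin r} (j k : Fin r) (h : j ≠ i) (hk : k ≠ i) (hjk : j ≠ k) :
    ¬ wR a j h ∣ wR a k hk := by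
  rw [wR_dvd, slice_w', Polynomial.eval_sub, Polynomial.eval_X, Polynomial.eval_C]
  intro h1
  have h2 := congrArg (subJ τ i k) h1
  rw [map_sub, map_neg, map_neg, map_zero, subJ_b, subJ_b, if_neg hjk, if_pos rfl] at h2
  apply cubic_ne a
  linear_combination h2

lemma wR_not_dvd_disc {i : Fin r} (j : Fin r) (h : j ≠ i) :
    ¬ wR a j h ∣ 4 * aR a i ^ 3 + 27 * X (vB τ i) ^ 2 := by
  rw [wR_dvd]
  intro h1
  rw [map_add, map_mul, map_mul, map_pow, map_pow, slice_a', slice_X_self, map_ofNat, map_ofNat,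
    Polynomial.eval_add, Polynomial.eval_mul, Polynomial.eval_mul, Polynomial.eval_pow,
    Polynomial.eval_pow, Polynomial.eval_C, Polynomial.eval_X, Polynomial.eval_ofNat,
    Polynomial.eval_ofNat] at h1
  have h2 := congrArg (subJ τ i j) h1
  rw [map_add, map_mul, map_mul, map_pow, map_pow, map_neg, map_zero, subJ_b, subJ_a, if_pos rfl,
    map_ofNat, map_ofNat] at h2
  have h3 := congrArg (Polynomial.eval 0) h2
  simp only [Polynomial.eval_add, Polynomial.eval_mul, Polynomial.eval_pow,
    Polynomial.eval_C, Polynomial.eval_X, Polynomial.eval_ofNat, Polynomial.eval_neg,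
    Polynomial.eval_zero] at h3
  have h4 : a = 0 := by
    have h5 : 4 * a ^ 3 = 0 := by linear_combination h3
    have h6 := (mul_eq_zero.1 h5).resolve_left (by norm_num)
    exact (pow_eq_zero_iff three_ne_zero).1 h6
  rw [h4] at h2
  have h7 : (27 : Polynomial (MvPolynomial τ ℤ)) * Polynomial.X ^ 6 = 0 := by
    rw [map_zero] at h2
    linear_combination h2
  have h8 := (mul_eq_zero.1 h7).resolve_left (by norm_num)
  exact Polynomial.X_ne_zero ((pow_eq_zero_iff (by norm_num)).1 h8)

/-- There is no point with nonzero second coordinate on the twist by a product of at least two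
of the `w_i`. -/
theorem no_point_prod (V : Type) [Field V] [Algebra (PP τ r) V] [IsFractionRing (PP τ r) V]
    (s : Finset (Fin r)) (hs : 1 < s.card) (x v : V) (hv : v ≠ 0)
    (heq : algebraMap (PP τ r) V (∏ j ∈ s, wP a j) * v ^ 2 =
      x ^ 3 + algebraMap (PP τ r) V (aP a) * x + algebraMap (PP τ r) V BP) : False := by
  obtain ⟨i, hi, j₀, hj₀, hne⟩ := Finset.one_lt_card.1 hs
  have hne' : j₀ ≠ i := fun h => hne h.symm
  set R := MvPolynomial (VR τ i) ℤ with hR
  set q : R := wR a j₀ hne' with hq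
  have hqp : Prime q := wR_prime a j₀ hne'
  -- the product of the other factors
  let wt : Fin r → R := fun j => if h : j ≠ i then wR a j h else 1
  have hwt : ∀ j, j ≠ i → slice (some (Sum.inr i)) (wP a j : PP τ r) = Polynomial.C (wt j) := by
    intro j hj
    rw [slice_w a j hj]
    simp only [wt, dif_pos hj]
  set δ : R := ∏ j ∈ s.erase i, wt j with hδ
  have hj₀' : j₀ ∈ s.erase i := mem_erase.2 ⟨hne', hj₀⟩
  have hδq : δ = q * ∏ j ∈ (s.erase i).erase j₀, wt j := by
    rw [hδ, ← mul_prod_erase _ _ hj₀']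
    simp only [wt, dif_pos hne', hq]
  have hnd : ¬ q ∣ ∏ j ∈ (s.erase i).erase j₀, wt j := by
    rw [Prime.dvd_finsetProd_iff hqp]
    rintro ⟨j, hj, hd⟩
    have h1 : j ≠ j₀ := ne_of_mem_erase hj
    have h2 : j ≠ i := ne_of_mem_erase (mem_of_mem_erase hj)
    simp only [wt, dif_pos h2] at hd
    exact wR_not_dvd_wR a j₀ j hne' h2 h1.symm hd
  have h2' : ¬ q ∣ 2 := by
    intro h1
    rw [hq, wR_dvd, map_ofNat, Polynomial.eval_ofNat] at h1
    exact two_ne_zero h1
  have hdisc0 : cubicDisc (0 : R) (aR a i) (X (vB τ i)) =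
      -(4 * aR a i ^ 3 + 27 * X (vB τ i) ^ 2) := by
    rw [cubicDisc]
    ring
  set h : Polynomial R := Polynomial.X ^ 3 + Polynomial.C (aR a i) * Polynomial.X +
    Polynomial.C (X (vB τ i)) with hh
  have hdeg : h.natDegree = 3 := by
    rw [hh]
    compute_degree!
  have hlc : h.leadingCoeff = 1 := by
    rw [Polynomial.leadingCoeff, hdeg, hh]
    simp [Polynomial.coeff_X, Polynomial.coeff_C]
  refine Pool.Agent.H126G.no_field' (slice (some (Sum.inr i))).toRingEquiv (0 : R) (aR a i)
    (X (vB τ i)) q δ (4 * aR a i ^ 3 + 27 * X (vB τ i) ^ 2) 0 (aP a) BP (∏ j ∈ s, wP a j) h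
    (-Polynomial.C (18 * aR a i) * Polynomial.X + Polynomial.C (27 * X (vB τ i)))
    (Polynomial.C (6 * aR a i) * Polynomial.X ^ 2 - Polynomial.C (9 * X (vB τ i)) * Polynomial.X +
      Polynomial.C (4 * aR a i ^ 2)) ?_ ?_ ?_ ?_ hqp h2' ?_ ?_ ?_ ?_ ?_ ?_ ?_ V x v hv ?_
  · simp
  · exact slice_a a i
  · exact slice_B i
  · change slice (some (Sum.inr i)) (∏ j ∈ s, wP a j) = _
    rw [map_prod, ← mul_prod_erase s _ hi, slice_w_self, mul_comm]
    congr 1
    rw [hδ, map_prod]
    exact prod_congr rfl fun j hj => hwt j (ne_of_mem_erase hj)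
  · rw [hdisc0, dvd_neg]
    exact wR_not_dvd_disc a j₀ hne'
  · rw [hdeg]; norm_num
  · rw [hlc]
    exact fun h1 => hqp.not_isUnit (isUnit_of_dvd_one h1)
  · exact wR_not_dvd_disc a j₀ hne'
  · rw [hh]
    simp only [Polynomial.derivative_add, Polynomial.derivative_X_pow, Polynomial.derivative_mul,
      Polynomial.derivative_C, Polynomial.derivative_X, map_mul, map_add, map_pow, map_ofNat]
    push_cast
    simp only [map_ofNat]
    ring
  · rw [hδq]
    refine mul_ne_zero hqp.ne_zero fun h0 => hnd ?_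
    rw [h0]
    exact dvd_zero _
  · have h1 : multiplicity q δ = 1 := by
      apply multiplicity_eq_of_dvd_of_not_dvd
      · rw [pow_one, hδq]
        exact dvd_mul_right _ _
      · rw [hδq, pow_succ, pow_one]
        intro h3
        exact hnd ((mul_dvd_mul_iff_left hqp.ne_zero).1 h3)
    rw [h1]
    exact odd_one
  · rw [heq, map_zero]
    ring

end

end Pool.Agent.TH958.FP
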