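import Pool.Agent.TH958.FP.Multi

/-!
# An abstract criterion for freeness and rank
-/

set_option autoImplicit false

namespace Pool.Agent.TH958.FP

open Finset

/-- An abelian group without 2-torsion, a 2-power multiple of which lies in the span of `r`
independent elements, is free of rank `r`. -/
theorem free_of {A : Type} [AddCommGroup A] {r : ℕ} (P : Fin r → A)
    (hind : LinearIndependent ℤ P) (h2 : ∀ a : A, 2 • a = 0 → a = 0) (k : ℕ)
    (hk : ∀ a : A, (2 ^ k) • a ∈ Submodule.span ℤ (Set.range P)) :
    Module.Free ℤ A ∧ Module.Finite ℤ A ∧ Module.finrank ℤ A = r := by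
  have h2k : ∀ (m : ℕ) (a : A), (2 ^ m) • a = 0 → a = 0 := by
    intro m
    induction m with
    | zero => intro a ha; rwa [pow_zero, one_smul] at ha
    | succ m ih =>
      intro a ha
      rw [pow_succ, mul_smul] at ha
      exact h2 a (ih _ ha)
  let M := Submodule.span ℤ (Set.range P)
  let g : A →ₗ[ℤ] M := LinearMap.codRestrict M (LinearMap.lsmul ℤ A ((2 ^ k : ℕ) : ℤ)) (by
    intro a
    have := hk a
    rwa [← natCast_zsmul] at this)
  have hg : Function.Injective g := by
    rw [injective_iff_map_eq_zero]
    intro a ha
    apply h2k k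
    have := congrArg Subtype.val ha
    rw [← natCast_zsmul]
    exact this
  have hM : Module.finrank ℤ M = r := by
    rw [finrank_span_eq_card hind, Fintype.card_fin]
  have hMf : Module.Finite ℤ M := Module.Finite.span_of_finite ℤ (Set.finite_range P)
  have hfin : Module.Finite ℤ A := Module.Finite.of_injective g hg
  have hMfree : Module.Free ℤ M := Module.Free.of_basis (Module.Basis.span hind)
  have hfree : Module.Free ℤ A := by
    have : Module.Free ℤ (LinearMap.range g) := inferInstance
    exact Module.Free.of_equiv (LinearEquiv.ofInjective g hg).symm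
  refine ⟨hfree, hfin, le_antisymm ?_ ?_⟩
  · rw [← hM]
    exact LinearMap.finrank_le_finrank_of_injective hg
  · conv_lhs => rw [← hM]
    exact Submodule.finrank_le M

end Pool.Agent.TH958.FP
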