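import Pool.Agent.TH958.FP.FieldF
import Pool.Agent.TH958.FP.NoPt
import Pool.Agent.TH958.FP.RankAbs

/-!
# The rank of the elliptic curve over the function field of the fibre power
-/

set_option autoImplicit false

namespace Pool.Agent.TH958.FP

open Finset WeierstrassCurve WeierstrassCurve.Affine

section
variable {τ : Type} {r : ℕ} (a : MvPolynomial τ ℤ) {K : Type} [Field K] [Algebra (PP τ r) K]
  [Algebra (RF r a) K] [IsScalarTower (PP τ r) (RF r a) K] [IsFractionRing (RF r a) K]
  (V : Type) [Field V] [Algebra (PP τ r) V] [IsFractionRing (PP τ r) V] [Algebra V K]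
  [IsScalarTower (PP τ r) V K]

/-- The curve over `V`. -/
noncomputable abbrev W0V (a : MvPolynomial τ ℤ) (r : ℕ) (V : Type) [Field V] [Algebra (PP τ r) V] :
    WeierstrassCurve V := WK a r V

/-- The curve over `K` as a base change. -/
noncomputable abbrev WB (a : MvPolynomial τ ℤ) (r : ℕ) (V K : Type) [Field V] [Algebra (PP τ r) V]
    [Field K] [Algebra V K] : WeierstrassCurve K := (WK a r V)⁄K

omit [IsFractionRing (PP τ r) V] [Algebra (RF r a) K] [IsScalarTower (PP τ r) (RF r a) K]
  [IsFractionRing (RF r a) K] in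
lemma WB_eq : WB a r V K = WK a r K := by
  apply WeierstrassCurve.ext
  · exact map_zero _
  · exact map_zero _
  · exact map_zero _
  · exact (IsScalarTower.algebraMap_apply (PP τ r) V K _).symm
  · exact (IsScalarTower.algebraMap_apply (PP τ r) V K _).symm

/-- The `i`-th square root in `K`. -/
noncomputable abbrev yy (a : MvPolynomial τ ℤ) {r : ℕ} (K : Type) [Field K] [Algebra (RF r a) K]
    (i : Fin r) : K := yK (wP a : Fin r → PP τ r) K i

omit [IsFractionRing (RF r a) K] in
lemma yy_sq (i : Fin r) : yy a K i ^ 2 = algebraMap (PP τ r) K (wP a i) := by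
  rw [yy, yK, ← map_pow, yR_sq, ← IsScalarTower.algebraMap_apply]

include a in
lemma K_inj : Function.Injective (algebraMap (PP τ r) K) := by
  rw [IsScalarTower.algebraMap_eq (PP τ r) (RF r a) K]
  exact (IsFractionRing.injective (RF r a) K).comp (RF_base_inj a)

include a r in
omit [IsScalarTower (PP τ r) (RF r a) K] in
lemma charZero_K : CharZero K :=
  charZero_of_injective_algebraMap (R := ℤ) (by
    have h : (algebraMap ℤ K) = (algebraMap (RF r a) K).comp ((algebraMap (PP τ r) (RF r a)).comp
        (algebraMap ℤ (PP τ r))) := RingHom.ext_int _ _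
    rw [h]
    exact (IsFractionRing.injective (RF r a) K).comp ((RF_base_inj a).comp
      (MvPolynomial.C_injective _ _)))

/-- The sign change. -/
noncomputable abbrev sj (j : Fin r) : K →ₐ[V] K := sK (V := V) (wP a : Fin r → PP τ r) j

lemma sj_y (j i : Fin r) : sj a V j (yy a K i) = if i = j then -yy a K i else yy a K i :=
  sK_y _ j i

lemma y_ne_zero (i : Fin r) : yy a K i ≠ 0 := by
  intro h
  have h1 := yy_sq a (K := K) i
  rw [h, zero_pow two_ne_zero] at h1
  have h2 := K_inj a (K := K) (h1.symm.trans (map_zero _).symm)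
  have h3 := w_not_square a (FractionRing (PP τ r)) {i} (singleton_nonempty i)
  rw [prod_singleton, h2, map_zero] at h3
  exact h3 ⟨0, by simp⟩

lemma sj_comm (i j : Fin r) : (sj a V i : K →ₐ[V] K).comp (sj a V j) =
    (sj a V j).comp (sj a V i) := by
  apply AlgHom.ext_of_adjoin_eq_top (K_adjoin (V := V) (K := K) (wP a : Fin r → PP τ r))
  rintro _ ⟨k, rfl⟩
  change sj a V i (sj a V j (yy a K k)) = sj a V j (sj a V i (yy a K k))
  rw [sj_y, sj_y]
  split_ifs with h1 h2 h2
  · rw [map_neg, map_neg, sj_y, sj_y, if_pos h1, if_pos h2]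
  · rw [map_neg, sj_y, sj_y, if_pos h1, if_neg h2]
  · rw [map_neg, sj_y, sj_y, if_neg h1, if_pos h2]
  · rw [sj_y, sj_y, if_neg h1, if_neg h2]

lemma sj_inv (i : Fin r) (z : K) : sj a V i (sj a V i z) = z := by
  have h : (sj a V i : K →ₐ[V] K).comp (sj a V i) = AlgHom.id V K := by
    apply AlgHom.ext_of_adjoin_eq_top (K_adjoin (V := V) (K := K) (wP a : Fin r → PP τ r))
    rintro _ ⟨k, rfl⟩
    change sj a V i (sj a V i (yy a K k)) = yy a K k
    rw [sj_y]
    split_ifs with h1
    · rw [map_neg, sj_y, if_pos h1, neg_neg]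
    · rw [sj_y, if_neg h1]
  exact congrArg (fun f => f z) h

variable [DecidableEq K]

/-- The action on points. -/
noncomputable def sp (j : Fin r) : (WB a r V K).toAffine.Point →+ (WB a r V K).toAffine.Point :=
  Point.map (W' := WK a r V) (sj a V j)

lemma sp_comm (i j : Fin r) (Q : (WB a r V K).toAffine.Point) :
    sp a V i (sp a V j Q) = sp a V j (sp a V i Q) := by
  rw [sp, sp, Point.map_map, Point.map_map, sj_comm]

lemma sp_inv (i : Fin r) (Q : (WB a r V K).toAffine.Point) : sp a V i (sp a V i Q) = Q := by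
  rcases Q with _ | ⟨x, y, h⟩
  · rfl
  · change Point.some _ _ _ = Point.some _ _ _
    simp only [sj_inv]

omit [DecidableEq K] [IsFractionRing (PP τ r) V] [Algebra (RF r a) K]
  [IsScalarTower (PP τ r) (RF r a) K] [IsFractionRing (RF r a) K] in
lemma WB_a1 : (WB a r V K).a₁ = 0 := by rw [WB_eq]; rfl
omit [DecidableEq K] [IsFractionRing (PP τ r) V] [Algebra (RF r a) K]
  [IsScalarTower (PP τ r) (RF r a) K] [IsFractionRing (RF r a) K] in
lemma WB_a2 : (WB a r V K).a₂ = 0 := by rw [WB_eq]; rfl
omit [DecidableEq K] [IsFractionRing (PP τ r) V] [Algebra (RF r a) K]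
  [IsScalarTower (PP τ r) (RF r a) K] [IsFractionRing (RF r a) K] in
lemma WB_a3 : (WB a r V K).a₃ = 0 := by rw [WB_eq]; rfl
omit [DecidableEq K] [IsFractionRing (PP τ r) V] [Algebra (RF r a) K]
  [IsScalarTower (PP τ r) (RF r a) K] [IsFractionRing (RF r a) K] in
lemma WB_a4 : (WB a r V K).a₄ = algebraMap (PP τ r) K (aP a) := by rw [WB_eq]; rfl
omit [DecidableEq K] [IsFractionRing (PP τ r) V] [Algebra (RF r a) K]
  [IsScalarTower (PP τ r) (RF r a) K] [IsFractionRing (RF r a) K] in
lemma WB_a6 : (WB a r V K).a₆ = algebraMap (PP τ r) K BP := by rw [WB_eq]; rfl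

omit [DecidableEq K] in
lemma nonsing_i (i : Fin r) :
    (WB a r V K).toAffine.Nonsingular (algebraMap (PP τ r) K (xP i)) (yy a K i) := by
  have := charZero_K (r := r) a (K := K)
  rw [nonsingular_iff]
  refine ⟨?_, Or.inr ?_⟩
  · rw [equation_iff, WB_a1, WB_a2, WB_a3, WB_a4, WB_a6, yy_sq, wP]
    simp only [map_add, map_mul, map_pow]
    ring
  · rw [WB_a1, WB_a3]
    intro h
    have h2 : 2 * yy a K i = 0 := by linear_combination h
    exact y_ne_zero a i ((mul_eq_zero.1 h2).resolve_left two_ne_zero)

/-- The `i`-th tautological point. -/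
noncomputable def Pi (i : Fin r) : (WB a r V K).toAffine.Point :=
  Point.some _ _ (nonsing_i a V i)

lemma sp_Pi (j i : Fin r) : sp a V j (Pi a V i : (WB a r V K).toAffine.Point) =
    if i = j then -Pi a V i else Pi a V i := by
  have hx : sj a V j (algebraMap (PP τ r) K (xP i)) = algebraMap (PP τ r) K (xP i) := by
    rw [IsScalarTower.algebraMap_apply (PP τ r) V K, AlgHom.commutes]
  split_ifs with h
  · rw [Pi, Point.neg_some]
    change Point.some _ _ _ = Point.some _ _ _
    simp only [Point.some.injEq]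
    refine ⟨hx, ?_⟩
    rw [sj_y, if_pos h, negY, WB_a1, WB_a3]
    ring
  · rw [Pi]
    change Point.some _ _ _ = Point.some _ _ _
    simp only [Point.some.injEq]
    exact ⟨hx, by rw [sj_y, if_neg h]⟩

include a in
omit [DecidableEq K] in
lemma exists_F_alg : ∃ (F : Type) (_ : Field F) (_ : Algebra (AA τ r) F)
    (_ : IsFractionRing (AA τ r) F) (_ : Algebra F K),
    ∀ p : AA τ r, algebraMap F K (algebraMap (AA τ r) F p) =
      algebraMap (PP τ r) K (MvPolynomial.rename some p) := by
  have hinj : Function.Injective ((algebraMap (PP τ r) K).comp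
      (MvPolynomial.rename (R := ℤ) (some : τ ⊕ Fin r → _) : AA τ r →+* PP τ r)) :=
    (K_inj a).comp (MvPolynomial.rename_injective _ (Option.some_injective _))
  refine ⟨FractionRing (AA τ r), inferInstance, inferInstance, inferInstance,
    (IsFractionRing.lift (K := FractionRing (AA τ r)) hinj).toAlgebra, ?_⟩
  intro p
  exact IsFractionRing.lift_algebraMap hinj p

/-- A simultaneous eigenvector of the sign changes is a multiple of some tautological point. -/
theorem eig (hr : 0 < r) (Q : (WB a r V K).toAffine.Point)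
    (hQ : ∀ j, sp a V j Q = Q ∨ sp a V j Q = -Q) : ∃ (i : Fin r) (n : ℤ), Q = n • Pi a V i := by
  classical
  rcases Q with _ | ⟨X, Y, h⟩
  · exact ⟨⟨0, hr⟩, 0, by rw [zero_smul]; rfl⟩
  have := charZero_K (r := r) a (K := K)
  have hX : ∀ j : Fin r, sj a V j X = X := by
    intro j
    rcases hQ j with h1 | h1
    · exact ((Point.some.injEq ..).mp h1).1
    · rw [Point.neg_some] at h1
      exact ((Point.some.injEq ..).mp h1).1
  have hY : ∀ j : Fin r, sj a V j Y = Y ∨ sj a V j Y = -Y := by
    intro j
    rcases hQ j with h1 | h1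
    · exact Or.inl ((Point.some.injEq ..).mp h1).2
    · rw [Point.neg_some] at h1
      right
      have h2 := ((Point.some.injEq ..).mp h1).2
      rw [negY, WB_a1, WB_a3] at h2
      rw [h2]
      ring
  have h2V : (2 : V) ≠ 0 := by
    intro h2
    have := congrArg (algebraMap V K) h2
    rw [map_ofNat, map_zero] at this
    exact two_ne_zero this
  have hyw : ∀ i, yy a K i ^ 2 = algebraMap V K (algebraMap (PP τ r) V (wP a i)) :=
    fun i => yK_sq (V := V) (wP a : Fin r → PP τ r) i
  set s : Finset (Fin r) := univ.filter fun j => sj a V j Y ≠ Y with hs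
  have hYs : ∀ j : Fin r, sj a V j Y = if j ∈ s then -Y else Y := by
    intro j
    split_ifs with hj
    · exact (hY j).resolve_left (by simpa [hs] using hj)
    · by_contra hcon
      exact hj (by simpa [hs] using hcon)
  obtain ⟨v, hv⟩ := eigen h2V hyw (K_adjoin (V := V) (K := K) (wP a : Fin r → PP τ r))
    (fun j i => sj_y a V j i) s Y hYs
  obtain ⟨x, hx⟩ := eigen h2V hyw (K_adjoin (V := V) (K := K) (wP a : Fin r → PP τ r))
    (fun j i => sj_y a V j i) ∅ X (fun j => by simpa using hX j)
  rw [prod_empty, mul_one] at hx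
  obtain ⟨F, _, _, _, _, hF⟩ := exists_F_alg (r := r) a (K := K)
  have hVmem : ∀ (i : Fin r) (z : V), algebraMap V K z ∈ IntermediateField.adjoin F {yy a K i} := by
    intro i z
    obtain ⟨p, q, -, rfl⟩ := IsFractionRing.div_surjective (A := PP τ r) z
    rw [map_div₀, ← IsScalarTower.algebraMap_apply, ← IsScalarTower.algebraMap_apply]
    exact div_mem (PP_mem a hF i _ (yy_sq a i) p) (PP_mem a hF i _ (yy_sq a i) q)
  have key : ∀ i : Fin r, Y ∈ IntermediateField.adjoin F {yy a K i} →
      ∃ n : ℤ, (Point.some X Y h : (WB a r V K).toAffine.Point) = n • Pi a V i := by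
    intro i hYi
    have hXi : X ∈ IntermediateField.adjoin F {yy a K i} := by
      rw [hx]; exact hVmem i x
    have gen : ∀ (W : WeierstrassCurve K) (_ : W = WK a r K) (h : W.toAffine.Nonsingular X Y)
        (h0 : W.toAffine.Nonsingular (algebraMap (PP τ r) K (xP i)) (yy a K i)),
        ∃ n : ℤ, (Point.some _ _ h : W.toAffine.Point) = n • Point.some _ _ h0 := by
      intro W hW h h0
      subst hW
      exact gen_K a (K_inj a) hF i _ (yy_sq a i) hXi hYi h h0
    exact gen _ (WB_eq a V) h (nonsing_i a V i)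
  by_cases hv0 : v = 0
  · rw [hv0, map_zero, zero_mul] at hv
    obtain ⟨n, hn⟩ := key ⟨0, hr⟩ (by rw [hv]; exact zero_mem _)
    exact ⟨_, n, hn⟩
  rcases Nat.lt_or_ge 1 s.card with hc | hc
  · exfalso
    refine no_point_prod a V s hc x v hv0 ?_
    apply (algebraMap V K).injective
    have h3 := (equation_iff _ _).1 h.1
    rw [WB_a1, WB_a2, WB_a3, WB_a4, WB_a6, hx, hv] at h3
    simp only [map_add, map_mul, map_pow, map_prod, ← hyw]
    rw [← IsScalarTower.algebraMap_apply, ← IsScalarTower.algebraMap_apply, prod_pow]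
    linear_combination h3
  · rcases Nat.le_one_iff_eq_zero_or_eq_one.1 hc with h0 | h1
    · rw [card_eq_zero] at h0
      rw [h0, prod_empty, mul_one] at hv
      obtain ⟨n, hn⟩ := key ⟨0, hr⟩ (by rw [hv]; exact hVmem _ v)
      exact ⟨_, n, hn⟩
    · obtain ⟨i, hi⟩ := card_eq_one.1 h1
      rw [hi, prod_singleton] at hv
      obtain ⟨n, hn⟩ := key i (by
        rw [hv]
        exact mul_mem (hVmem i v) (IntermediateField.mem_adjoin_simple_self F _))
      exact ⟨i, n, hn⟩

/-- The tautological points have infinite order. -/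
theorem Pi_nontors (i : Fin r) (n : ℤ) (hn : n ≠ 0) :
    n • (Pi a V i : (WB a r V K).toAffine.Point) ≠ 0 := by
  classical
  let S := MvPolynomial (VR τ i) ℤ
  let e := (Pool.Agent.H126R3.slice (some (Sum.inr i : τ ⊕ Fin r))).toRingEquiv
  let g : S →+* K := (algebraMap (PP τ r) K).comp ((e.symm : Polynomial S →+* PP τ r).comp
    Polynomial.C)
  have hg : Function.Injective g :=
    (K_inj a).comp (e.symm.injective.comp Polynomial.C_injective)
  let F := FractionRing S
  let _ : Algebra F K := (IsFractionRing.lift (K := F) hg).toAlgebra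
  have hF : ∀ p : S, algebraMap F K (algebraMap S F p) =
      algebraMap (PP τ r) K (e.symm (Polynomial.C p)) := fun p =>
    IsFractionRing.lift_algebraMap hg p
  have hx := trans_general (F := F) (K_inj a (K := K)) e hF
  have hex : e.symm Polynomial.X = (xP i : PP τ r) := by
    rw [RingEquiv.symm_apply_eq]
    exact (Pool.Agent.H126R3.slice_X_self _).symm
  rw [hex] at hx
  have h4 : (WB a r V K).a₄ = algebraMap F K (algebraMap S F (aR a i)) := by
    rw [hF, WB_a4]
    congr 1
    rw [eq_comm, RingEquiv.symm_apply_eq]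
    exact (slice_a a i).symm
  have h6 : (WB a r V K).a₆ = algebraMap F K (algebraMap S F (MvPolynomial.X (vB τ i))) := by
    rw [hF, WB_a6]
    congr 1
    rw [eq_comm, RingEquiv.symm_apply_eq]
    exact (slice_B i).symm
  have hcz : CharZero F := charZero_of_injective_algebraMap (IsFractionRing.injective S F)
  exact nontorsion (WB_a1 a V) (WB_a2 a V) (WB_a3 a V) h4 h6 hx (nonsing_i a V i) n hn

theorem no_two_tors (hr : 0 < r) (T : (WB a r V K).toAffine.Point) (hT : 2 • T = 0) : T = 0 := by
  by_contra hne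
  have key : ∀ l : Finset (Fin r), ∃ T' : (WB a r V K).toAffine.Point, T' ≠ 0 ∧ 2 • T' = 0 ∧
      ∀ j ∈ l, sp a V j T' = T' := by
    intro l
    induction l using Finset.induction_on with
    | empty => exact ⟨T, hne, hT, by simp⟩
    | insert i l hi ih =>
      obtain ⟨T', h1, h2, h3⟩ := ih
      by_cases h4 : T' + sp a V i T' = 0
      · refine ⟨T', h1, h2, ?_⟩
        intro j hj
        rcases mem_insert.1 hj with rfl | hj
        · have h5 : sp a V j T' = -T' := by
            rw [eq_neg_iff_add_eq_zero, add_comm]; exact h4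
          rw [h5, neg_eq_iff_add_eq_zero, ← two_smul ℕ]
          exact h2
        · exact h3 j hj
      · refine ⟨T' + sp a V i T', h4, ?_, ?_⟩
        · rw [smul_add, ← map_nsmul, h2, map_zero, add_zero]
        · intro j hj
          rcases mem_insert.1 hj with rfl | hj
          · rw [map_add, sp_inv, add_comm]
          · rw [map_add, sp_comm, h3 j hj]
  obtain ⟨T', h1, h2, h3⟩ := key univ
  obtain ⟨i, n, hn⟩ := eig a V hr T' (fun j => Or.inl (h3 j (mem_univ j)))
  have hn0 : n ≠ 0 := by
    rintro rfl
    rw [zero_smul] at hn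
    exact h1 hn
  refine Pi_nontors (K := K) a V i (2 * n) (mul_ne_zero two_ne_zero hn0) ?_
  rw [mul_smul, ← hn]
  exact_mod_cast h2

theorem Pi_indep : LinearIndependent ℤ (fun i => (Pi a V i : (WB a r V K).toAffine.Point)) := by
  rw [Fintype.linearIndependent_iff]
  intro g hg j
  have h1 := congrArg (sp a V j) hg
  rw [map_sum, map_zero] at h1
  have h2 : ∀ i, sp a V j (g i • (Pi a V i : (WB a r V K).toAffine.Point)) =
      if i = j then -(g i • Pi a V i) else g i • Pi a V i := by
    intro i
    rw [map_zsmul, sp_Pi]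
    split_ifs
    · rw [smul_neg]
    · rfl
  have h3 : (2 * g j) • (Pi a V j : (WB a r V K).toAffine.Point) = 0 := by
    have h4 : ∑ i, (g i • (Pi a V i : (WB a r V K).toAffine.Point) -
        sp a V j (g i • Pi a V i)) = 0 := by
      rw [sum_sub_distrib, hg, h1, sub_zero]
    rw [← h4, sum_eq_single j]
    · rw [h2, if_pos rfl, sub_neg_eq_add, mul_smul, two_smul]
    · intro i _ hi
      rw [h2, if_neg hi, sub_self]
    · intro h; exact (h (mem_univ j)).elim
  by_contra hne
  exact Pi_nontors a V j (2 * g j) (mul_ne_zero two_ne_zero hne) h3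

/-- The group of points is free of rank `r`. -/
theorem rank_WB (hr : 0 < r) : Module.Free ℤ (WB a r V K).toAffine.Point ∧
    Module.Finite ℤ (WB a r V K).toAffine.Point ∧
    Module.finrank ℤ (WB a r V K).toAffine.Point = r := by
  have hsp : ∀ Q : (WB a r V K).toAffine.Point, (2 ^ r) • Q ∈ Submodule.span ℤ
      (Set.range fun i : Fin r => (Pi a V i : (WB a r V K).toAffine.Point)) := by
    intro Q
    have h1 := sign_decomp (A := (WB a r V K).toAffine.Point) (sp a V) (sp_comm a V) (sp_inv a V)
      univ Q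
    rw [card_univ, Fintype.card_fin] at h1
    have h2 : AddSubgroup.closure {b : (WB a r V K).toAffine.Point | ∀ i ∈ univ,
        sp a V i b = b ∨ sp a V i b = -b} ≤ (Submodule.span ℤ (Set.range fun i =>
          (Pi a V i : (WB a r V K).toAffine.Point))).toAddSubgroup := by
      rw [AddSubgroup.closure_le]
      intro b hb
      obtain ⟨i, n, rfl⟩ := eig a V hr b (fun j => hb j (mem_univ j))
      exact Submodule.smul_mem _ n (Submodule.subset_span ⟨i, rfl⟩)
    exact h2 h1
  exact free_of (A := (WB a r V K).toAffine.Point)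
    (fun i => (Pi a V i : (WB a r V K).toAffine.Point)) (Pi_indep a V) (no_two_tors a V hr) r hsp

end

end Pool.Agent.TH958.FP
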