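import Pool.Agent.TH958.FP.Theta

/-!
# Denominators in the coordinate ring over `F(y)`
-/

set_option autoImplicit false

namespace Pool.Agent.TH958.FP

open Polynomial WeierstrassCurve WeierstrassCurve.Affine

variable {F : Type} [Field F]

section C0

variable (α t : F)

/-- The polynomial `X³ + αX - t³ - αt` over `F`. -/
noncomputable def gP : F[X] := X ^ 3 + C α * X - C (t ^ 3 + α * t)

/-- The element of `F[X, U]` mapping to `U y`. -/
noncomputable def sy : F[X][X] := C (C 2⁻¹) * (C (gP α t) - X ^ 2)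

lemma mk_rel : CoordinateRing.mk (W0 α t).toAffine (X ^ 2) =
    CoordinateRing.mk (W0 α t).toAffine
      (C (X ^ 3 + C (C α) * X + C (X ^ 2 - C (t ^ 3 + α * t)))) := by
  exact AdjoinRoot.mk_eq_mk.mpr ⟨1, by rw [W0_polynomial, mul_one]⟩

lemma theta0_C (p : F[X]) : theta0 α t (C p) = inner α t p := by
  simp [theta0]

lemma theta0_X : theta0 α t X = U0 α t := by
  simp [theta0]

lemma inner_gP : inner α t (gP α t) = CoordinateRing.mk (W0 α t).toAffine
    (C (X ^ 3 + C (C α) * X - C (C (t ^ 3 + α * t)))) := by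
  unfold inner gP
  simp

lemma inner_C (c : F) : inner α t (C c) = CoordinateRing.mk (W0 α t).toAffine (C (C (C c))) := by
  unfold inner
  simp

lemma theta0_sy (h2 : (2 : F) ≠ 0) : theta0 α t (sy α t) =
    U0 α t * CoordinateRing.mk (W0 α t).toAffine (C (C X)) := by
  have h1 := mk_rel α t
  unfold sy
  rw [map_mul, map_sub, map_pow, theta0_C, theta0_C, theta0_X, inner_gP, inner_C, U0]
  simp only [map_sub, map_add, map_mul, map_pow] at h1 ⊢
  have h3 : CoordinateRing.mk (W0 α t).toAffine (C (C (C (2⁻¹ : F)))) * 2 = 1 := by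
    have : (C (C (C (2⁻¹ : F))) : F[X][X][X]) * 2 = 1 := by
      have h4 : (C (C (C (2⁻¹ : F))) : F[X][X][X]) * C (C (C 2)) = 1 := by
        rw [← C_mul, ← C_mul, ← C_mul, inv_mul_cancel₀ h2]
        simp
      rwa [map_ofNat, map_ofNat, map_ofNat] at h4
    have h5 := congrArg (CoordinateRing.mk (W0 α t).toAffine) this
    rwa [map_mul, map_ofNat, map_one] at h5
  set m := CoordinateRing.mk (W0 α t).toAffine
  have h6 : m (C X) ^ 3 + m (C (C (C α))) * m (C X) - (m (C (C (C t))) ^ 3 +
      m (C (C (C α))) * m (C (C (C t)))) - (m X - m (C (C X))) ^ 2 =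
      2 * ((m X - m (C (C X))) * m (C (C X))) := by
    linear_combination (-1 : C0 α t) * h1
  rw [h6, ← mul_assoc, h3, one_mul]

/-- `U ^ K p(y)` lies in the image of `F[X, U]` if `K` is at least the degree of `p`. -/
lemma exists_theta0 (h2 : (2 : F) ≠ 0) (p : F[X]) (K : ℕ) (hK : p.natDegree ≤ K) :
    ∃ s : F[X][X], theta0 α t s = U0 α t ^ K * CoordinateRing.mk (W0 α t).toAffine (C (C p)) := by
  refine ⟨∑ i ∈ Finset.range (p.natDegree + 1), C (C (p.coeff i)) * sy α t ^ i * X ^ (K - i), ?_⟩
  rw [map_sum]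
  conv_rhs => rw [p.as_sum_range_C_mul_X_pow]
  simp only [map_sum, Finset.mul_sum]
  refine Finset.sum_congr rfl fun i hi => ?_
  have hi' : i ≤ K := by
    have := Finset.mem_range.1 hi
    omega
  rw [map_mul, map_mul, map_pow, map_pow, theta0_sy α t h2, theta0_X, theta0_C, inner_C]
  simp only [map_mul, map_pow]
  have h3 : U0 α t ^ K = U0 α t ^ i * U0 α t ^ (K - i) := by
    rw [← pow_add]
    congr 1
    omega
  rw [h3, mul_pow]
  ring

end C0

section CV

variable {V : Type} [Field V] [Algebra F V]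

/-- Evaluation at `y`. -/
noncomputable def fy (y : V) : F[X] →+* V := (aeval y : F[X] →ₐ[F] V)

lemma fy_X (y : V) : fy (F := F) y X = y := by
  simp [fy]

lemma fy_C (y : V) (c : F) : fy y (C c) = algebraMap F V c := by
  simp [fy]

/-- The curve over `V = F(y)`. -/
noncomputable abbrev WV (α t : F) (y : V) : WeierstrassCurve V := (W0 α t).map (fy y)

/-- The coordinate ring over `V`. -/
abbrev CV (α t : F) (y : V) : Type := (WV α t y).toAffine.CoordinateRing

variable (α t : F) (y : V)

/-- The map `C₀ → C_V`. -/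
noncomputable def phi : C0 α t →+* CV α t y := CoordinateRing.map (W0 α t).toAffine (fy y)

lemma phi_mk (x : F[X][X][X]) : phi α t y (CoordinateRing.mk (W0 α t).toAffine x) =
    CoordinateRing.mk (WV α t y).toAffine (x.map (mapRingHom (fy y))) :=
  CoordinateRing.map_mk _ _

lemma phi_injective (hy : Transcendental F y) : Function.Injective (phi α t y) :=
  CoordinateRing.map_injective (transcendental_iff_injective.1 hy)

/-- The map `F[X, U] → C_V`. -/
noncomputable def theta : F[X][X] →+* CV α t y := (phi α t y).comp (theta0 α t)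

lemma theta_injective (h2 : (2 : F) ≠ 0) (hy : Transcendental F y) :
    Function.Injective (theta α t y) :=
  (phi_injective α t y hy).comp (theta0_injective α t h2)

/-- The constants of `C_V`. -/
noncomputable def cV : V →+* CV α t y := (CoordinateRing.mk (WV α t y).toAffine).comp (C.comp C)

/-- The element `U = Y - y` of `C_V`. -/
noncomputable def UV : CV α t y := CoordinateRing.mk (WV α t y).toAffine (X - C (C y))

lemma phi_U0 : phi α t y (U0 α t) = UV α t y := by
  unfold U0 UV
  rw [phi_mk]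
  simp [fy_X]

lemma exists_theta (h2 : (2 : F) ≠ 0) (p : F[X]) (K : ℕ) (hK : p.natDegree ≤ K) :
    ∃ s : F[X][X], theta α t y s = UV α t y ^ K * cV α t y (fy y p) := by
  obtain ⟨s, hs⟩ := exists_theta0 α t h2 p K hK
  refine ⟨s, ?_⟩
  unfold theta
  rw [RingHom.comp_apply, hs, map_mul, map_pow, phi_U0, phi_mk]
  simp [cV]

/-- The denominators. -/
def MM : Submonoid F[X][X] where
  carrier := {m | ∃ (k : ℕ) (d : F[X]), fy y d ≠ 0 ∧ theta α t y m = UV α t y ^ k * cV α t y (fy y d)}
  mul_mem' := by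
    rintro a b ⟨k, d, hd, ha⟩ ⟨l, e, he, hb⟩
    refine ⟨k + l, d * e, ?_, ?_⟩
    · rw [map_mul]
      exact mul_ne_zero hd he
    · rw [map_mul, ha, hb, map_mul, map_mul, pow_add]
      ring
  one_mem' := ⟨0, 1, by simp, by simp⟩

/-- The elements with a denominator. -/
def HasDen (c : CV α t y) : Prop := ∃ m ∈ MM α t y, ∃ s, theta α t y m * c = theta α t y s

variable {α t y}

lemma HasDen.add {a b : CV α t y} (ha : HasDen α t y a) (hb : HasDen α t y b) :
    HasDen α t y (a + b) := by
  obtain ⟨m, hm, s, hs⟩ := ha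
  obtain ⟨n, hn, u, hu⟩ := hb
  refine ⟨m * n, (MM α t y).mul_mem hm hn, n * s + m * u, ?_⟩
  simp only [map_mul, map_add]
  linear_combination (theta α t y n) * hs + (theta α t y m) * hu

lemma HasDen.mul {a b : CV α t y} (ha : HasDen α t y a) (hb : HasDen α t y b) :
    HasDen α t y (a * b) := by
  obtain ⟨m, hm, s, hs⟩ := ha
  obtain ⟨n, hn, u, hu⟩ := hb
  refine ⟨m * n, (MM α t y).mul_mem hm hn, s * u, ?_⟩
  simp only [map_mul]
  rw [← hs, ← hu]
  ring

lemma hasDen_theta (s : F[X][X]) : HasDen α t y (theta α t y s) :=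
  ⟨1, (MM α t y).one_mem, s, by simp⟩

lemma hasDen_const (h2 : (2 : F) ≠ 0)
    (hgen : ∀ v : V, ∃ p d : F[X], aeval y d ≠ 0 ∧ v * aeval y d = aeval y p) (v : V) :
    HasDen α t y (cV α t y v) := by
  obtain ⟨p, d, hd, h⟩ := hgen v
  obtain ⟨m, hm⟩ := exists_theta α t y h2 d (max d.natDegree p.natDegree) (le_max_left _ _)
  obtain ⟨s, hs⟩ := exists_theta α t y h2 p (max d.natDegree p.natDegree) (le_max_right _ _)
  refine ⟨m, ⟨_, d, hd, hm⟩, s, ?_⟩
  rw [hm, hs, mul_assoc, ← map_mul]
  congr 2
  rw [mul_comm]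
  exact h

lemma theta_CX : theta α t y (C X) = CoordinateRing.mk (WV α t y).toAffine (C X) := by
  unfold theta
  rw [RingHom.comp_apply, theta0_C, inner]
  simp only [RingHom.comp_apply, coe_mapRingHom, map_X]
  rw [phi_mk]
  simp

lemma theta_X : theta α t y X = UV α t y := by
  unfold theta
  rw [RingHom.comp_apply, theta0_X, phi_U0]

lemma hasDen_poly (h2 : (2 : F) ≠ 0)
    (hgen : ∀ v : V, ∃ p d : F[X], aeval y d ≠ 0 ∧ v * aeval y d = aeval y p) (p : V[X]) :
    HasDen α t y (CoordinateRing.mk (WV α t y).toAffine (C p)) := by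
  induction p using Polynomial.induction_on' with
  | add p q hp hq =>
    rw [map_add, map_add]
    exact hp.add hq
  | monomial n a =>
    rw [← C_mul_X_pow_eq_monomial, map_mul, map_mul, map_pow, map_pow, ← theta_CX, ← map_pow]
    exact (hasDen_const h2 hgen a).mul (hasDen_theta _)

lemma hasDen_Y (h2 : (2 : F) ≠ 0)
    (hgen : ∀ v : V, ∃ p d : F[X], aeval y d ≠ 0 ∧ v * aeval y d = aeval y p) :
    HasDen α t y (CoordinateRing.mk (WV α t y).toAffine X) := by
  have h : CoordinateRing.mk (WV α t y).toAffine X = theta α t y X + cV α t y y := by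
    rw [theta_X, UV, cV]
    simp
  rw [h]
  exact (hasDen_theta _).add (hasDen_const h2 hgen y)

lemma hasDen_all (h2 : (2 : F) ≠ 0)
    (hgen : ∀ v : V, ∃ p d : F[X], aeval y d ≠ 0 ∧ v * aeval y d = aeval y p) (c : CV α t y) :
    HasDen α t y c := by
  obtain ⟨x, rfl⟩ := AdjoinRoot.mk_surjective c
  induction x using Polynomial.induction_on' with
  | add p q hp hq =>
    rw [map_add]
    exact hp.add hq
  | monomial n a =>
    rw [← C_mul_X_pow_eq_monomial, map_mul, map_pow]
    refine (hasDen_poly h2 hgen a).mul ?_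
    induction n with
    | zero => rw [pow_zero]; simpa using hasDen_theta (α := α) (t := t) (y := y) 1
    | succ n ih =>
      rw [pow_succ]
      exact ih.mul (hasDen_Y h2 hgen)

end CV

/-- In the coordinate ring of a Weierstrass curve over a field all nonzero primes are maximal. -/
lemma dim_one {V : Type} [Field V] (W : WeierstrassCurve V) (p : Ideal W.toAffine.CoordinateRing)
    (hp : p.IsPrime) (h0 : p ≠ ⊥) : p.IsMaximal := by
  have hfin : Module.Finite V[X] W.toAffine.CoordinateRing :=
    Module.Finite.of_basis (CoordinateRing.basis W.toAffine)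
  have hint : Algebra.IsIntegral V[X] W.toAffine.CoordinateRing := Algebra.IsIntegral.of_finite _ _
  have h1 : p.comap (algebraMap V[X] W.toAffine.CoordinateRing) ≠ ⊥ := by
    obtain ⟨x, hx, hx0⟩ := Submodule.exists_mem_ne_zero_of_ne_bot h0
    exact Ideal.comap_ne_bot_of_integral_mem hx0 hx (Algebra.IsIntegral.isIntegral x)
  have h2 : (p.comap (algebraMap V[X] W.toAffine.CoordinateRing)).IsPrime :=
    Ideal.IsPrime.comap _
  have h3 : (p.comap (algebraMap V[X] W.toAffine.CoordinateRing)).IsMaximal :=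
    IsPrime.to_maximal_ideal h1
  exact Ideal.isMaximal_of_isIntegral_of_isMaximal_comap p h3

end Pool.Agent.TH958.FP
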