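import Pool.Agent.TH958.FP.Ring

/-!
# The base ring of the fibre power and the polynomials `w_i = x_i³ + a x_i + B`
-/

set_option autoImplicit false

namespace Pool.Agent.TH958.FP

open Finset MvPolynomial

/-- The ring `ℤ[u, x_1, ..., x_r]`. -/
abbrev AA (τ : Type) (r : ℕ) : Type := MvPolynomial (τ ⊕ Fin r) ℤ

/-- The ring `ℤ[u, x_1, ..., x_r, B]`. -/
abbrev PP (τ : Type) (r : ℕ) : Type := MvPolynomial (Option (τ ⊕ Fin r)) ℤ

section
variable {τ : Type} {r : ℕ}

/-- The coefficient `a(u)`. -/
noncomputable def aP (a : MvPolynomial τ ℤ) : PP τ r := rename (fun t => some (Sum.inl t)) a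

/-- The coordinate `x_i`. -/
noncomputable def xP (i : Fin r) : PP τ r := X (some (Sum.inr i))

/-- The coordinate `B`. -/
noncomputable def BP : PP τ r := X none

/-- The polynomial `x_i³ + a(u) x_i + B`. -/
noncomputable def wP (a : MvPolynomial τ ℤ) (i : Fin r) : PP τ r :=
  xP i ^ 3 + aP a * xP i + BP

/-- The coefficient `a(u)` in `ℤ[u, x]`. -/
noncomputable def aA (a : MvPolynomial τ ℤ) : AA τ r := rename Sum.inl a

/-- The coordinate `x_i` in `ℤ[u, x]`. -/
noncomputable def xA (i : Fin r) : AA τ r := X (Sum.inr i)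

lemma oe_B : optionEquivLeft ℤ (τ ⊕ Fin r) BP = Polynomial.X := by
  rw [BP, optionEquivLeft_X_none]

lemma oe_x (i : Fin r) : optionEquivLeft ℤ (τ ⊕ Fin r) (xP i) = Polynomial.C (xA i) := by
  rw [xP, optionEquivLeft_X_some, xA]

lemma oe_some {σ : Type} (p : MvPolynomial σ ℤ) :
    optionEquivLeft ℤ σ (rename some p) = Polynomial.C p := by
  induction p using MvPolynomial.induction_on with
  | C a => rw [rename_C, optionEquivLeft_C]
  | add p q hp hq => rw [map_add, map_add, hp, hq, map_add]
  | mul_X p i hp => rw [map_mul, map_mul, hp, rename_X, optionEquivLeft_X_some, map_mul]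

lemma aP_eq (a : MvPolynomial τ ℤ) : (aP a : PP τ r) = rename some (aA a) := by
  rw [aP, aA, rename_rename]
  rfl

lemma oe_a (a : MvPolynomial τ ℤ) : optionEquivLeft ℤ (τ ⊕ Fin r) (aP a) = Polynomial.C (aA a) := by
  rw [aP_eq, oe_some]

/-- minus the root of `w_i` as a polynomial in `B` -/
noncomputable def bA (a : MvPolynomial τ ℤ) (i : Fin r) : AA τ r := xA i ^ 3 + aA a * xA i

lemma oe_w (a : MvPolynomial τ ℤ) (i : Fin r) :
    optionEquivLeft ℤ (τ ⊕ Fin r) (wP a i) = Polynomial.X - Polynomial.C (-bA a i) := by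
  rw [wP, map_add, map_add, map_mul, map_pow, oe_x, oe_a, oe_B, bA, map_neg, map_add, map_mul,
    map_pow]
  ring

/-- the substitution `x_k ↦ 0` for `k ≠ i` -/
noncomputable def subI (τ : Type) {r : ℕ} (i : Fin r) :
    AA τ r →ₐ[ℤ] Polynomial (MvPolynomial τ ℤ) :=
  aeval (Sum.elim (fun t => Polynomial.C (X t)) (fun k => if k = i then Polynomial.X else 0))

lemma subI_a (i : Fin r) (a : MvPolynomial τ ℤ) : subI τ i (aA a) = Polynomial.C a := by
  rw [subI, aA, aeval_rename]
  have h : (Sum.elim (fun t => (Polynomial.C (X t) : Polynomial (MvPolynomial τ ℤ)))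
      (fun k => if k = i then Polynomial.X else 0)) ∘ Sum.inl = fun t => Polynomial.C (X t) := rfl
  rw [h]
  induction a using MvPolynomial.induction_on with
  | C a => simp
  | add p q hp hq => rw [map_add, hp, hq, map_add]
  | mul_X p i hp => rw [map_mul, hp, aeval_X, map_mul]

lemma subI_x (i k : Fin r) : subI τ i (xA k) = if k = i then Polynomial.X else 0 := by
  rw [subI, xA, aeval_X]
  rfl

lemma cubic_ne {A : Type} [CommRing A] [Nontrivial A] (a : A) :
    (Polynomial.X ^ 3 + Polynomial.C a * Polynomial.X : Polynomial A) ≠ 0 := by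
  intro h
  have h1 := congrArg (fun p => p.coeff 3) h
  simp [Polynomial.coeff_X] at h1

lemma bA_injective (a : MvPolynomial τ ℤ) : Function.Injective (bA a : Fin r → AA τ r) := by
  intro i j hij
  by_contra hne
  have h1 := congrArg (subI τ i) hij
  rw [bA, bA, map_add, map_mul, map_pow, map_add, map_mul, map_pow, subI_x, subI_x, subI_a,
    if_pos rfl, if_neg (Ne.symm hne), mul_zero, zero_pow three_ne_zero, add_zero] at h1
  exact cubic_ne a h1

/-- The products of the `w_i` are not squares. -/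
theorem w_not_square (a : MvPolynomial τ ℤ) (V : Type) [Field V] [Algebra (PP τ r) V]
    [IsFractionRing (PP τ r) V] (S : Finset (Fin r)) (hS : S.Nonempty) :
    ¬ IsSquare (algebraMap (PP τ r) V (∏ i ∈ S, wP a i)) := by
  rintro ⟨v, hv⟩
  obtain ⟨i, hi⟩ := hS
  have hint : IsIntegral (PP τ r) (v ^ 2) := by
    rw [sq, ← hv]
    exact isIntegral_algebraMap
  obtain ⟨p, rfl⟩ := IsIntegrallyClosed.exists_algebraMap_eq_of_isIntegral_pow
    (by norm_num : 0 < 2) hint
  rw [← map_mul] at hv
  have h1 := IsFractionRing.injective (PP τ r) V hv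
  have h2 := congrArg (optionEquivLeft ℤ (τ ⊕ Fin r)) h1
  rw [map_prod, map_mul] at h2
  set g := optionEquivLeft ℤ (τ ⊕ Fin r) p with hg
  rw [← mul_prod_erase S _ hi, oe_w] at h2
  have h3 : g.IsRoot (-bA a i) := by
    have := congrArg (Polynomial.eval (-bA a i)) h2
    rw [Polynomial.eval_mul, Polynomial.eval_mul, Polynomial.eval_sub, Polynomial.eval_X,
      Polynomial.eval_C, sub_self, zero_mul] at this
    exact mul_self_eq_zero.1 this.symm
  obtain ⟨g', hg'⟩ := Polynomial.dvd_iff_isRoot.2 h3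
  rw [hg', mul_assoc] at h2
  have h4 := mul_left_cancel₀ (Polynomial.X_sub_C_ne_zero _) h2
  have h5 := congrArg (Polynomial.eval (-bA a i)) h4
  rw [Polynomial.eval_mul, Polynomial.eval_mul, Polynomial.eval_sub, Polynomial.eval_X,
      Polynomial.eval_C, sub_self, zero_mul, mul_zero, Polynomial.eval_prod, prod_eq_zero_iff] at h5
  obtain ⟨j, hj, h6⟩ := h5
  rw [oe_w, Polynomial.eval_sub, Polynomial.eval_X, Polynomial.eval_C, sub_eq_zero, neg_inj] at h6
  exact (ne_of_mem_erase hj) (bA_injective a h6).symm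

/-- The coordinate ring of the fibre power. -/
abbrev RF (r : ℕ) (a : MvPolynomial τ ℤ) : Type := RR (wP a : Fin r → PP τ r)

instance RF_domain (a : MvPolynomial τ ℤ) : IsDomain (RF r a) :=
  RR_domain _ (FractionRing (PP τ r)) two_ne_zero (w_not_square a _)

lemma RF_base_inj (a : MvPolynomial τ ℤ) : Function.Injective (algebraMap (PP τ r) (RF r a)) :=
  RR_base_inj _ (FractionRing (PP τ r)) two_ne_zero (w_not_square a _)

end

end Pool.Agent.TH958.FP
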