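import Pool.Agent.TH958.FP.Transfer
import Pool.Agent.TH958.FP.Spec
import Pool.Agent.H126R3.Slice

/-!
# The rational function field `F(y_i)` inside the function field
-/

set_option autoImplicit false

namespace Pool.Agent.TH958.FP

open WeierstrassCurve WeierstrassCurve.Affine

/-- Transcendence of the last variable over the fraction field of the others. -/
lemma trans_general {A F K Q : Type} [CommRing A] [IsDomain A] [Field F] [Algebra A F]
    [IsFractionRing A F] [Field K] [Algebra F K] [CommRing Q] [Algebra Q K]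
    (hinj : Function.Injective (algebraMap Q K)) (e : Q ≃+* Polynomial A)
    (hF : ∀ p : A, algebraMap F K (algebraMap A F p) = algebraMap Q K (e.symm (Polynomial.C p))) :
    Transcendental F (algebraMap Q K (e.symm Polynomial.X)) := by
  let _ : Algebra A K := ((algebraMap F K).comp (algebraMap A F)).toAlgebra
  have _ : IsScalarTower A F K := IsScalarTower.of_algebraMap_eq' rfl
  intro halg
  rw [← IsFractionRing.isAlgebraic_iff A F K] at halg
  revert halg
  change Transcendental A _
  rw [transcendental_iff_injective]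
  have h : ∀ p : Polynomial A, Polynomial.aeval (algebraMap Q K (e.symm Polynomial.X)) p =
      algebraMap Q K (e.symm p) := by
    intro p
    have h1 : ((Polynomial.aeval (algebraMap Q K (e.symm Polynomial.X)) : Polynomial A →ₐ[A] K) :
        Polynomial A →+* K) = (algebraMap Q K).comp (e.symm : Polynomial A →+* Q) := by
      apply Polynomial.ringHom_ext
      · intro c
        change Polynomial.aeval (algebraMap Q K (e.symm Polynomial.X)) (Polynomial.C c) =
          algebraMap Q K (e.symm (Polynomial.C c))
        rw [Polynomial.aeval_C, ← hF]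
        rfl
      · change Polynomial.aeval (algebraMap Q K (e.symm Polynomial.X)) Polynomial.X =
          algebraMap Q K (e.symm Polynomial.X)
        rw [Polynomial.aeval_X]
    exact congrArg (fun f => f p) h1
  intro p q hpq
  rw [h, h] at hpq
  exact e.symm.injective (hinj hpq)

section
variable {τ : Type} {r : ℕ} (a : MvPolynomial τ ℤ) {K : Type} [Field K] [Algebra (PP τ r) K]
  (hinj : Function.Injective (algebraMap (PP τ r) K)) {F : Type} [Field F] [Algebra (AA τ r) F]
  [IsFractionRing (AA τ r) F] [Algebra F K]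
  (hF : ∀ p : AA τ r, algebraMap F K (algebraMap (AA τ r) F p) =
    algebraMap (PP τ r) K (MvPolynomial.rename some p))

include hinj hF

lemma B_trans : Transcendental F (algebraMap (PP τ r) K BP) := by
  have h := trans_general (F := F) hinj (MvPolynomial.optionEquivLeft ℤ (τ ⊕ Fin r)).toRingEquiv (by
    intro p
    rw [hF]
    congr 1
    change _ = (MvPolynomial.optionEquivLeft ℤ (τ ⊕ Fin r)).symm (Polynomial.C p)
    rw [← oe_some, AlgEquiv.symm_apply_apply])
  have e : (MvPolynomial.optionEquivLeft ℤ (τ ⊕ Fin r)).toRingEquiv.symm Polynomial.X =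
      (BP : PP τ r) := by
    change (MvPolynomial.optionEquivLeft ℤ (τ ⊕ Fin r)).symm Polynomial.X = _
    rw [← oe_B, AlgEquiv.symm_apply_apply]
  rwa [e] at h

lemma y_trans (i : Fin r) (y : K) (hy : y ^ 2 = algebraMap (PP τ r) K (wP a i)) :
    Transcendental F y := by
  intro halg
  apply B_trans hinj hF
  have h1 : algebraMap (PP τ r) K BP = y ^ 2 -
      algebraMap F K (algebraMap (AA τ r) F (xA i ^ 3 + aA a * xA i)) := by
    rw [hy, hF, wP, map_add, map_add (MvPolynomial.rename some), map_mul, map_pow, ← aP_eq, xA,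
      MvPolynomial.rename_X]
    simp only [map_add, map_mul, map_pow]
    rw [xP]
    ring
  rw [h1]
  exact (halg.pow 2).sub (isAlgebraic_algebraMap _)

omit hinj in
lemma PP_mem (i : Fin r) (y : K) (hy : y ^ 2 = algebraMap (PP τ r) K (wP a i)) (p : PP τ r) :
    algebraMap (PP τ r) K p ∈ IntermediateField.adjoin F {y} := by
  have hA : ∀ q : AA τ r, algebraMap (PP τ r) K (MvPolynomial.rename some q) ∈
      IntermediateField.adjoin F {y} := by
    intro q
    rw [← hF]
    exact IntermediateField.algebraMap_mem _ _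
  induction p using MvPolynomial.induction_on with
  | C c =>
    have := hA (MvPolynomial.C c)
    rwa [MvPolynomial.rename_C] at this
  | add p q hp hq => rw [map_add]; exact add_mem hp hq
  | mul_X p j hp =>
    rw [map_mul]
    refine mul_mem hp ?_
    rcases j with _ | j
    · have h1 : algebraMap (PP τ r) K (MvPolynomial.X none) = y ^ 2 -
        algebraMap (PP τ r) K (MvPolynomial.rename some (xA i ^ 3 + aA a * xA i)) := by
        rw [hy, wP, BP, map_add, map_add (MvPolynomial.rename some), map_mul (MvPolynomial.rename some),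
          map_pow (MvPolynomial.rename some), ← aP_eq, xA, MvPolynomial.rename_X]
        rw [xP]
        ring
      rw [h1]
      exact sub_mem (pow_mem (IntermediateField.mem_adjoin_simple_self F y) 2) (hA _)
    · have := hA (MvPolynomial.X j)
      rwa [MvPolynomial.rename_X] at this

omit hinj hF

omit [Algebra F K] [Field K] [Algebra (PP τ r) K] in
lemma F_root (i : Fin r) (f : F) : f ^ 2 + algebraMap (AA τ r) F (xA i) * f +
    (algebraMap (AA τ r) F (xA i) ^ 2 + algebraMap (AA τ r) F (aA a)) ≠ 0 := by
  intro h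
  have h1 : (2 * f + algebraMap (AA τ r) F (xA i)) ^ 2 =
      algebraMap (AA τ r) F (-(3 * xA i ^ 2 + 4 * aA a)) := by
    simp only [map_neg, map_add, map_mul, map_pow, map_ofNat]
    linear_combination 4 * h
  have hint : _root_.IsIntegral (AA τ r) ((2 * f + algebraMap (AA τ r) F (xA i)) ^ 2) := by
    rw [h1]
    exact isIntegral_algebraMap
  obtain ⟨g, hg⟩ := IsIntegrallyClosed.exists_algebraMap_eq_of_isIntegral_pow
    (by norm_num : 0 < 2) hint
  rw [← hg, ← map_pow] at h1
  have h2 := IsFractionRing.injective (AA τ r) F h1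
  set a₀ : ℤ := MvPolynomial.aeval (R := ℤ) (fun _ : τ => (0 : ℤ)) a with ha₀
  set ev : AA τ r →ₐ[ℤ] ℤ := MvPolynomial.aeval (R := ℤ)
    (Sum.elim (fun _ : τ => (0 : ℤ)) (fun _ : Fin r => 1 + |a₀|)) with hev
  have h3 := congrArg ev h2
  have ha : ev (aA a) = a₀ := by
    rw [hev, aA, MvPolynomial.aeval_rename, Sum.elim_comp_inl]
  have hx : ev (xA i) = 1 + |a₀| := by
    rw [hev, xA, MvPolynomial.aeval_X]
    rfl
  simp only [map_neg, map_add, map_mul, map_pow, map_ofNat, ha, hx] at h3
  have h4 := sq_nonneg (ev g)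
  have h5 := neg_abs_le a₀
  have h6 := abs_nonneg a₀
  nlinarith

/-- The elliptic curve `Y² = X³ + a(u) X + B` over a field containing the base ring. -/
noncomputable def WK (a : MvPolynomial τ ℤ) (r : ℕ) (K : Type) [Field K] [Algebra (PP τ r) K] :
    WeierstrassCurve K where
  a₁ := 0
  a₂ := 0
  a₃ := 0
  a₄ := algebraMap (PP τ r) K (aP a)
  a₆ := algebraMap (PP τ r) K BP

include hF in
lemma WK_eq (i : Fin r) (y : K) (hy : y ^ 2 = algebraMap (PP τ r) K (wP a i)) :
    WK a r K = WV (algebraMap (AA τ r) F (aA a)) (algebraMap (AA τ r) F (xA i)) y := by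
  apply WeierstrassCurve.ext
  · rw [WV_a1]; rfl
  · rw [WV_a2]; rfl
  · rw [WV_a3]; rfl
  · rw [WV_a4, hF, ← aP_eq]; rfl
  · rw [WV_a6, hF, hF, ← aP_eq, hy, wP, xA, MvPolynomial.rename_X]
    simp only [map_add, map_mul, map_pow]
    rw [xP, WK]
    ring

include hinj hF in
/-- Points with coordinates in `F(y_i)` are multiples of `(x_i, y_i)`. -/
theorem gen_K [DecidableEq K] (i : Fin r) (y : K) (hy : y ^ 2 = algebraMap (PP τ r) K (wP a i))
    {X Y : K} (hX : X ∈ IntermediateField.adjoin F {y})
    (hY : Y ∈ IntermediateField.adjoin F {y}) (h : (WK a r K).toAffine.Nonsingular X Y)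
    (h0 : (WK a r K).toAffine.Nonsingular (algebraMap (PP τ r) K (xP i)) y) :
    ∃ n : ℤ, (Point.some _ _ h : (WK a r K).toAffine.Point) = n • Point.some _ _ h0 := by
  have hFinj : Function.Injective (algebraMap (AA τ r) F) := IsFractionRing.injective _ _
  have hcz : CharZero F := charZero_of_injective_algebraMap hFinj
  have hx : algebraMap (PP τ r) K (xP i) = algebraMap F K (algebraMap (AA τ r) F (xA i)) := by
    rw [hF, xA, MvPolynomial.rename_X, xP]
  have h0' : (WK a r K).toAffine.Nonsingular (algebraMap F K (algebraMap (AA τ r) F (xA i))) y :=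
    hx ▸ h0
  obtain ⟨n, hn⟩ := gen_transfer (F := F) two_ne_zero y (y_trans a hinj hF i y hy)
    (algebraMap (AA τ r) F (aA a)) (algebraMap (AA τ r) F (xA i)) (F_root a i) (WK a r K)
    (WK_eq a hF i y hy) hX hY h h0'
  refine ⟨n, ?_⟩
  rw [hn]
  congr 1
  simp only [hx]

end

end Pool.Agent.TH958.FP
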