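import Pool.Agent.TH958.FP.Den

/-!
# The points of `Y² = X³ + αX + y² - t³ - αt` over `F(y)`
-/

set_option autoImplicit false

namespace Pool.Agent.TH958.FP

open Polynomial WeierstrassCurve WeierstrassCurve.Affine
open scoped nonZeroDivisors

variable {F V : Type} [Field F] [Field V] [Algebra F V] {α t : F} {y : V}

lemma WV_a1 : (WV α t y).a₁ = 0 := by simp [W0]
lemma WV_a2 : (WV α t y).a₂ = 0 := by simp [W0]
lemma WV_a3 : (WV α t y).a₃ = 0 := by simp [W0]
lemma WV_a4 : (WV α t y).a₄ = algebraMap F V α := by simp [W0, fy_C]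
lemma WV_a6 : (WV α t y).a₆ = y ^ 2 - (algebraMap F V t ^ 3 + algebraMap F V α * algebraMap F V t) := by
  simp [W0, fy_C, fy_X]

lemma WV_eq (x₀ y₀ : V) : (WV α t y).toAffine.Equation x₀ y₀ ↔
    y₀ ^ 2 = x₀ ^ 3 + algebraMap F V α * x₀ +
      (y ^ 2 - (algebraMap F V t ^ 3 + algebraMap F V α * algebraMap F V t)) := by
  rw [WeierstrassCurve.Affine.equation_iff, WV_a1, WV_a2, WV_a3, WV_a4, WV_a6]
  simp

lemma y_ne (hy : Transcendental F y) : y ≠ 0 := by
  rintro rfl
  exact hy isAlgebraic_zero

lemma two_ne_V (h2 : (2 : F) ≠ 0) : (2 : V) ≠ 0 := by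
  have h := (map_ne_zero_iff (algebraMap F V) (algebraMap F V).injective).2 h2
  rwa [map_ofNat] at h

/-- The tautological point is nonsingular. -/
lemma nonsing (h2 : (2 : F) ≠ 0) (hy : Transcendental F y) :
    (WV α t y).toAffine.Nonsingular (algebraMap F V t) y := by
  rw [WeierstrassCurve.Affine.nonsingular_iff']
  refine ⟨(WV_eq _ _).2 (by ring), Or.inr ?_⟩
  rw [WV_a1, WV_a3, zero_mul, add_zero, add_zero]
  exact mul_ne_zero (two_ne_V h2) (y_ne hy)

/-- The quadratic factor. -/
noncomputable def qP (α t : F) (V : Type) [Field V] [Algebra F V] : V[X] :=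
  X ^ 2 + C (algebraMap F V t) * X + C (algebraMap F V t ^ 2 + algebraMap F V α)

lemma qP_irreducible
    (hroot : ∀ z : V, z ^ 2 + algebraMap F V t * z + (algebraMap F V t ^ 2 + algebraMap F V α) ≠ 0) :
    Irreducible (qP α t V) := by
  have hdeg : (qP α t V).natDegree = 2 := by
    unfold qP
    compute_degree!
  refine Polynomial.irreducible_of_degree_le_three_of_not_isRoot ?_ ?_
  · rw [hdeg]
    simp
  · intro z hz
    rw [IsRoot.def] at hz
    refine hroot z ?_
    rw [← hz]
    unfold qP
    simp

/-- The relation of the curve. -/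
lemma mk_relV : CoordinateRing.mk (WV α t y).toAffine (X ^ 2) =
    CoordinateRing.mk (WV α t y).toAffine
      (C (X ^ 3 + C (algebraMap F V α) * X + C (y ^ 2 - (algebraMap F V t ^ 3 +
        algebraMap F V α * algebraMap F V t)))) := by
  refine AdjoinRoot.mk_eq_mk.mpr ⟨1, ?_⟩
  rw [WeierstrassCurve.Affine.polynomial, WV_a1, WV_a2, WV_a3, WV_a4, WV_a6]
  simp

/-- The map to `V[X]/(q)`. -/
noncomputable def chi (α t : F) (y : V) : CV α t y →+* AdjoinRoot (qP α t V) :=
  AdjoinRoot.lift (AdjoinRoot.mk (qP α t V)) (AdjoinRoot.mk (qP α t V) (C y)) (by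
    rw [WeierstrassCurve.Affine.polynomial, WV_a1, WV_a2, WV_a3, WV_a4, WV_a6]
    simp only [eval₂_sub, eval₂_pow, eval₂_X, eval₂_C, eval₂_add, eval₂_mul]
    rw [← map_pow, ← map_mul, ← map_add, ← map_sub, AdjoinRoot.mk_eq_zero]
    refine ⟨-(X - C (algebraMap F V t)), ?_⟩
    unfold qP
    simp only [map_sub, map_add, map_mul, map_pow, map_zero]
    ring)

lemma chi_mk (x : V[X][X]) : chi α t y (CoordinateRing.mk (WV α t y).toAffine x) =
    AdjoinRoot.mk (qP α t V) (x.eval (C y)) := by
  unfold chi
  rw [AdjoinRoot.lift_mk, Polynomial.eval₂_at_apply]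

/-- The second prime ideal containing `U`. -/
noncomputable def qI (α t : F) (y : V) : Ideal (CV α t y) :=
  Ideal.span {UV α t y, CoordinateRing.mk (WV α t y).toAffine (C (qP α t V))}

lemma qI_eq_ker : qI α t y = RingHom.ker (chi α t y) := by
  refine le_antisymm ?_ fun c hc => ?_
  · unfold qI
    rw [Ideal.span_le]
    rintro c (rfl | hc)
    · rw [SetLike.mem_coe, RingHom.mem_ker, UV, chi_mk]
      simp
    · rw [Set.mem_singleton_iff] at hc
      rw [hc, SetLike.mem_coe, RingHom.mem_ker, chi_mk]
      simp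
  · obtain ⟨p, r, rfl⟩ := CoordinateRing.exists_smul_basis_eq c
    rw [RingHom.mem_ker] at hc
    rw [CoordinateRing.smul, CoordinateRing.smul, mul_one, ← map_mul, ← map_add, chi_mk] at hc
    simp only [eval_add, eval_C, eval_mul, eval_X] at hc
    rw [AdjoinRoot.mk_eq_zero] at hc
    obtain ⟨k, hk⟩ := hc
    rw [CoordinateRing.smul, CoordinateRing.smul, mul_one]
    have h1 : CoordinateRing.mk (WV α t y).toAffine (C p) +
        CoordinateRing.mk (WV α t y).toAffine (C r) * CoordinateRing.mk (WV α t y).toAffine X =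
        CoordinateRing.mk (WV α t y).toAffine (C k) *
          CoordinateRing.mk (WV α t y).toAffine (C (qP α t V)) +
        CoordinateRing.mk (WV α t y).toAffine (C r) * UV α t y := by
      have h2 : (C p + C r * X : V[X][X]) = C k * C (qP α t V) + C r * (X - C (C y)) := by
        rw [← C_mul, mul_comm k, ← hk]
        simp only [C_add, C_mul]
        ring
      have h3 := congrArg (CoordinateRing.mk (WV α t y).toAffine) h2
      rw [map_add, map_add, map_mul, map_mul, map_mul] at h3
      exact h3
    rw [h1]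
    unfold qI
    exact Ideal.add_mem _ (Ideal.mul_mem_left _ _ (Ideal.subset_span (by simp)))
      (Ideal.mul_mem_left _ _ (Ideal.subset_span (by simp)))

lemma qI_prime
    (hroot : ∀ z : V, z ^ 2 + algebraMap F V t * z + (algebraMap F V t ^ 2 + algebraMap F V α) ≠ 0) :
    (qI α t y).IsPrime := by
  have : Fact (Irreducible (qP α t V)) := ⟨qP_irreducible hroot⟩
  rw [qI_eq_ker]
  exact RingHom.ker_isPrime _

lemma UV_eq : UV α t y = CoordinateRing.YClass (WV α t y).toAffine (C y) := rfl

/-- The factorisation `(U) = 𝔭 𝔮`. -/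
lemma pq_eq (h2 : (2 : F) ≠ 0) (hy : Transcendental F y) :
    CoordinateRing.XYIdeal (WV α t y).toAffine (algebraMap F V t) (C y) * qI α t y =
      Ideal.span {UV α t y} := by
  set m := CoordinateRing.mk (WV α t y).toAffine
  set ξ := CoordinateRing.XClass (WV α t y).toAffine (algebraMap F V t) with hξ
  set U := UV α t y with hU
  set q := CoordinateRing.mk (WV α t y).toAffine (C (qP α t V)) with hq
  have hrel := mk_relV (α := α) (t := t) (y := y)
  have hprod : ξ * q = U * (U + 2 * cV α t y y) := by
    have h1 : ξ * q = CoordinateRing.mk (WV α t y).toAffine (C (X ^ 3 + C (algebraMap F V α) * X -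
        C (algebraMap F V t ^ 3 + algebraMap F V α * algebraMap F V t))) := by
      rw [hξ, hq, CoordinateRing.XClass, ← map_mul, ← C_mul]
      congr 2
      unfold qP
      simp only [map_add, map_mul, map_pow]
      ring
    rw [h1, hU, UV, cV]
    simp only [RingHom.comp_apply, map_sub, map_add, map_mul, map_pow] at hrel ⊢
    linear_combination (-1 : CV α t y) * hrel
  have hunit : IsUnit (2 * cV α t y y) := by
    have h1 : (2 : CV α t y) * cV α t y y = cV α t y (2 * y) := by
      rw [map_mul, map_ofNat]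
    rw [h1]
    exact (IsUnit.mk0 _ (mul_ne_zero (two_ne_V h2) (y_ne hy))).map _
  apply le_antisymm
  · rw [CoordinateRing.XYIdeal, qI, Ideal.span_mul_span', Ideal.span_le]
    rintro _ ⟨a, ha, b, hb, rfl⟩
    rcases hb with rfl | hb
    · exact Ideal.mul_mem_left _ _ (Ideal.mem_span_singleton_self _)
    · rw [Set.mem_singleton_iff] at hb
      subst hb
      rcases ha with rfl | ha
      · change ξ * q ∈ _
        rw [hprod]
        exact Ideal.mul_mem_right _ _ (Ideal.mem_span_singleton_self _)
      · rw [Set.mem_singleton_iff] at ha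
        subst ha
        exact Ideal.mul_mem_right _ _ (Ideal.mem_span_singleton_self _)
  · rw [Ideal.span_le, Set.singleton_subset_iff, SetLike.mem_coe]
    have h1 : U * (2 * cV α t y y) ∈ CoordinateRing.XYIdeal (WV α t y).toAffine
        (algebraMap F V t) (C y) * qI α t y := by
      have h2 : U * (2 * cV α t y y) = ξ * q - U * U := by
        rw [hprod]
        ring
      rw [h2]
      refine Ideal.sub_mem _ (Ideal.mul_mem_mul ?_ ?_) (Ideal.mul_mem_mul ?_ ?_)
      · exact Ideal.subset_span (by simp [hξ])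
      · exact Ideal.subset_span (by simp [hq])
      · exact Ideal.subset_span (by simp [hU, UV_eq])
      · exact Ideal.subset_span (by simp [hU])
    obtain ⟨u, hu⟩ := hunit
    rw [← hu] at h1
    have h3 := Ideal.mul_mem_right ((u⁻¹ : (CV α t y)ˣ) : CV α t y) _ h1
    rwa [Units.mul_inv_cancel_right] at h3

end Pool.Agent.TH958.FP
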