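import Pool.Agent.TH958.FP.Gen

/-!
# The group of points over `F(y)` is generated by the tautological point
-/

set_option autoImplicit false

namespace Pool.Agent.TH958.FP

open Polynomial WeierstrassCurve WeierstrassCurve.Affine
open scoped nonZeroDivisors

section general

variable {V : Type} [Field V] {W : WeierstrassCurve V}

lemma XYIdeal_isMaximal {x y : V} (h : W.toAffine.Nonsingular x y) :
    (CoordinateRing.XYIdeal W.toAffine x (C y)).IsMaximal := by
  refine Ideal.Quotient.maximal_of_isField _ ?_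
  refine (CoordinateRing.quotientXYIdealEquiv (W' := W.toAffine) (x := x) (y := C y)
    h.1).toRingEquiv.toMulEquiv.isField ?_
  exact Field.toIsField V

lemma XClass_mem (x y : V) : CoordinateRing.XClass W.toAffine x ∈
    CoordinateRing.XYIdeal W.toAffine x (C y) := Ideal.subset_span (by simp)

lemma YClass_mem (x y : V) : CoordinateRing.YClass W.toAffine (C y) ∈
    CoordinateRing.XYIdeal W.toAffine x (C y) := Ideal.subset_span (by simp)

lemma XYIdeal_ne_bot (x y : V) : CoordinateRing.XYIdeal W.toAffine x (C y) ≠ ⊥ := by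
  intro h
  have h1 := XClass_mem (W := W) x y
  rw [h, Ideal.mem_bot] at h1
  exact CoordinateRing.XClass_ne_zero x h1

/-- the unit given by a nonzero element -/
noncomputable def prin {C : Type*} [CommRing C] [IsDomain C] (h : C) (h0 : h ≠ 0) : FU C :=
  toPrincipalIdeal C (FractionRing C) (Units.mk0 (algebraMap C (FractionRing C) h)
    ((map_ne_zero_iff _ (IsFractionRing.injective C (FractionRing C))).2 h0))

lemma prin_coe {C : Type*} [CommRing C] [IsDomain C] (h : C) (h0 : h ≠ 0) :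
    ((prin h h0 : FU C) : FractionalIdeal C⁰ (FractionRing C)) = (Ideal.span {h} : Ideal C) := by
  unfold prin
  rw [coe_toPrincipalIdeal, FractionalIdeal.coeIdeal_span_singleton]
  rfl

lemma mk_prin {C : Type*} [CommRing C] [IsDomain C] (h : C) (h0 : h ≠ 0) :
    ClassGroup.mk (FractionRing C) (prin h h0) = 1 :=
  (ClassGroup.mk_eq_one_of_coe_ideal (prin_coe h h0)).2 ⟨h, h0, rfl⟩

end general

variable {F V : Type} [Field F] [Field V] [Algebra F V] {α t : F} {y : V}

lemma UV_notMem {x₀ y₀ : V} (h : (WV α t y).toAffine.Nonsingular x₀ y₀) (hy0 : y₀ ≠ y) :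
    UV α t y ∉ CoordinateRing.XYIdeal (WV α t y).toAffine x₀ (C y₀) := by
  intro hU
  have h1 := YClass_mem (W := WV α t y) x₀ y₀
  have h2 := Ideal.sub_mem _ hU h1
  have h3 : UV α t y - CoordinateRing.YClass (WV α t y).toAffine (C y₀) = cV α t y (y₀ - y) := by
    unfold UV CoordinateRing.YClass cV
    rw [← map_sub]
    simp
  rw [h3] at h2
  have h4 : IsUnit (cV α t y (y₀ - y)) := (IsUnit.mk0 _ (sub_ne_zero.2 hy0)).map _
  exact (XYIdeal_isMaximal h).ne_top (Ideal.eq_top_of_isUnit_mem _ h2 h4)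

/-- Up to a power of `U`, the ideal of a point is principal. -/
lemma exists_h (h2 : (2 : F) ≠ 0) (hy : Transcendental F y)
    (hgen : ∀ v : V, ∃ p d : F[X], aeval y d ≠ 0 ∧ v * aeval y d = aeval y p)
    {x₀ y₀ : V} (h : (WV α t y).toAffine.Nonsingular x₀ y₀) (hy0 : y₀ ≠ y) :
    ∃ g ∈ CoordinateRing.XYIdeal (WV α t y).toAffine x₀ (C y₀), g ≠ 0 ∧ ∃ K : ℕ,
      Ideal.span {UV α t y ^ K} * CoordinateRing.XYIdeal (WV α t y).toAffine x₀ (C y₀) ≤
        Ideal.span {g} := by
  have hmax := XYIdeal_isMaximal h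
  have hnm : ∀ m ∈ MM α t y, theta α t y m ∉
      CoordinateRing.XYIdeal (WV α t y).toAffine x₀ (C y₀) := by
    rintro m ⟨k, d, hd, hm⟩ hmem
    rw [hm] at hmem
    rcases hmax.isPrime.mem_or_mem hmem with h3 | h3
    · exact UV_notMem h hy0 (hmax.isPrime.mem_of_pow_mem _ h3)
    · exact hmax.ne_top (Ideal.eq_top_of_isUnit_mem _ h3 ((IsUnit.mk0 _ hd).map _))
  obtain ⟨g, hg, hg0, hall⟩ := ufd_trick (theta α t y) (theta_injective α t y h2 hy) (MM α t y)
    (hasDen_all h2 hgen) (dim_one _) (CoordinateRing.XYIdeal (WV α t y).toAffine x₀ (C y₀))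
    (XYIdeal_ne_bot _ _) hnm
  have hpow : ∀ c ∈ CoordinateRing.XYIdeal (WV α t y).toAffine x₀ (C y₀), ∃ k : ℕ,
      UV α t y ^ k * c ∈ Ideal.span {g} := by
    intro c hc
    obtain ⟨m, ⟨k, d, hd, hm⟩, hmem⟩ := hall c hc
    refine ⟨k, ?_⟩
    rw [hm] at hmem
    obtain ⟨u, hu⟩ := (IsUnit.mk0 _ hd).map (cV α t y)
    rw [← hu] at hmem
    have h3 := Ideal.mul_mem_right ((u⁻¹ : (CV α t y)ˣ) : CV α t y) _ hmem
    have h4 : UV α t y ^ k * (u : CV α t y) * c * ((u⁻¹ : (CV α t y)ˣ) : CV α t y) =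
        UV α t y ^ k * c := by
      calc UV α t y ^ k * (u : CV α t y) * c * ((u⁻¹ : (CV α t y)ˣ) : CV α t y) =
          UV α t y ^ k * c * ((u : CV α t y) * ((u⁻¹ : (CV α t y)ˣ) : CV α t y)) := by ring
        _ = UV α t y ^ k * c := by rw [Units.mul_inv, mul_one]
    rwa [h4] at h3
  obtain ⟨k₁, hk₁⟩ := hpow _ (XClass_mem (W := WV α t y) x₀ y₀)
  obtain ⟨k₂, hk₂⟩ := hpow _ (YClass_mem (W := WV α t y) x₀ y₀)
  refine ⟨g, hg, hg0, k₁ + k₂, ?_⟩
  rw [CoordinateRing.XYIdeal, Ideal.span_mul_span', Ideal.span_le]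
  rintro _ ⟨a, ha, b, hb, rfl⟩
  rw [Set.mem_singleton_iff] at ha
  subst ha
  rcases hb with rfl | hb
  · have : UV α t y ^ (k₁ + k₂) * CoordinateRing.XClass (WV α t y).toAffine x₀ =
        UV α t y ^ k₂ * (UV α t y ^ k₁ * CoordinateRing.XClass (WV α t y).toAffine x₀) := by ring
    change UV α t y ^ (k₁ + k₂) * CoordinateRing.XClass (WV α t y).toAffine x₀ ∈ _
    rw [this]
    exact Ideal.mul_mem_left _ _ hk₁
  · rw [Set.mem_singleton_iff] at hb
    subst hb
    have : UV α t y ^ (k₁ + k₂) * CoordinateRing.YClass (WV α t y).toAffine (C y₀) =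
        UV α t y ^ k₁ * (UV α t y ^ k₂ * CoordinateRing.YClass (WV α t y).toAffine (C y₀)) := by
      ring
    change UV α t y ^ (k₁ + k₂) * CoordinateRing.YClass (WV α t y).toAffine (C y₀) ∈ _
    rw [this]
    exact Ideal.mul_mem_left _ _ hk₂

lemma UV_ne : UV α t y ≠ 0 := by
  rw [UV_eq]
  exact CoordinateRing.YClass_ne_zero _

/-- The class of the ideal of a point is a power of the class of the tautological point. -/
lemma class_mem (h2 : (2 : F) ≠ 0) (hy : Transcendental F y)
    (hgen : ∀ v : V, ∃ p d : F[X], aeval y d ≠ 0 ∧ v * aeval y d = aeval y p)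
    (hroot : ∀ z : V, z ^ 2 + algebraMap F V t * z + (algebraMap F V t ^ 2 + algebraMap F V α) ≠ 0)
    {x₀ y₀ : V} (h : (WV α t y).toAffine.Nonsingular x₀ y₀) (hy0 : y₀ ≠ y) :
    ClassGroup.mk (FractionRing (CV α t y)) (CoordinateRing.XYIdeal' (W := (WV α t y).toAffine) h) ∈
      Subgroup.zpowers (ClassGroup.mk (FractionRing (CV α t y))
        (CoordinateRing.XYIdeal' (W := (WV α t y).toAffine) (nonsing h2 hy))) := by
  obtain ⟨g, hg, hg0, K, hK⟩ := exists_h h2 hy hgen h hy0
  set P : FU (CV α t y) := CoordinateRing.XYIdeal' (W := (WV α t y).toAffine) h with hP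
  set p : FU (CV α t y) := CoordinateRing.XYIdeal' (W := (WV α t y).toAffine) (nonsing h2 hy)
    with hp
  have hPc : (P : FractionalIdeal (CV α t y)⁰ (FractionRing (CV α t y))) =
      (CoordinateRing.XYIdeal (WV α t y).toAffine x₀ (C y₀) : Ideal (CV α t y)) :=
    CoordinateRing.XYIdeal'_eq h
  have hpc : (p : FractionalIdeal (CV α t y)⁰ (FractionRing (CV α t y))) =
      (CoordinateRing.XYIdeal (WV α t y).toAffine (algebraMap F V t) (C y) : Ideal (CV α t y)) :=
    CoordinateRing.XYIdeal'_eq (nonsing h2 hy)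
  set H := Subgroup.zpowers (ClassGroup.mk (FractionRing (CV α t y)) p) with hH
  have hpH : ClassGroup.mk (FractionRing (CV α t y)) p ∈ H := Subgroup.mem_zpowers _
  set q : FU (CV α t y) := prin (UV α t y) UV_ne * p⁻¹ with hq
  have hqc : (q : FractionalIdeal (CV α t y)⁰ (FractionRing (CV α t y))) =
      (qI α t y : Ideal (CV α t y)) := by
    have h3 : (p : FractionalIdeal (CV α t y)⁰ (FractionRing (CV α t y))) *
        (qI α t y : Ideal (CV α t y)) = (prin (UV α t y) UV_ne : FU (CV α t y)) := by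
      rw [hpc, ← FractionalIdeal.coeIdeal_mul, pq_eq h2 hy, prin_coe]
    rw [hq, Units.val_mul, ← h3, mul_right_comm, ← Units.val_mul, mul_inv_cancel, Units.val_one,
      one_mul]
  have hqH : ClassGroup.mk (FractionRing (CV α t y)) q ∈ H := by
    rw [hq, map_mul, mk_prin, one_mul, map_inv]
    exact H.inv_mem hpH
  have hpprime : (CoordinateRing.XYIdeal (WV α t y).toAffine (algebraMap F V t) (C y)).IsPrime :=
    (XYIdeal_isMaximal (nonsing h2 hy)).isPrime
  have hqprime : (qI α t y).IsPrime := qI_prime hroot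
  set J : FU (CV α t y) := prin g hg0 * P⁻¹ with hJ
  set J' : FU (CV α t y) := prin (UV α t y) UV_ne ^ K * P * (prin g hg0)⁻¹ with hJ'
  have hJ1 : (J : FractionalIdeal (CV α t y)⁰ (FractionRing (CV α t y))) ≤ 1 := by
    have h3 : ((prin g hg0 : FU (CV α t y)) :
        FractionalIdeal (CV α t y)⁰ (FractionRing (CV α t y))) ≤ P := by
      rw [hPc, prin_coe]
      exact (FractionalIdeal.coeIdeal_le_coeIdeal _).2
        ((Ideal.span_singleton_le_iff_mem _).2 hg)
    have h4 : ((prin g hg0 : FU (CV α t y)) :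
        FractionalIdeal (CV α t y)⁰ (FractionRing (CV α t y))) * ((P⁻¹ : FU (CV α t y)) :
          FractionalIdeal (CV α t y)⁰ (FractionRing (CV α t y))) ≤
        (P : FractionalIdeal (CV α t y)⁰ (FractionRing (CV α t y))) * ((P⁻¹ : FU (CV α t y)) :
          FractionalIdeal (CV α t y)⁰ (FractionRing (CV α t y))) := by gcongr
    rwa [← Units.val_mul, ← Units.val_mul, mul_inv_cancel, Units.val_one] at h4
  have hpow : ((prin (UV α t y) UV_ne ^ K : FU (CV α t y)) :
      FractionalIdeal (CV α t y)⁰ (FractionRing (CV α t y))) =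
      (Ideal.span {UV α t y ^ K} : Ideal (CV α t y)) := by
    rw [Units.val_pow_eq_pow_val, prin_coe, ← FractionalIdeal.coeIdeal_pow,
      Ideal.span_singleton_pow]
  have hJ1' : (J' : FractionalIdeal (CV α t y)⁰ (FractionRing (CV α t y))) ≤ 1 := by
    have h3 : ((prin (UV α t y) UV_ne ^ K * P : FU (CV α t y)) :
        FractionalIdeal (CV α t y)⁰ (FractionRing (CV α t y))) ≤
        (prin g hg0 : FU (CV α t y)) := by
      rw [Units.val_mul, hpow, hPc, prin_coe, ← FractionalIdeal.coeIdeal_mul]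
      exact (FractionalIdeal.coeIdeal_le_coeIdeal _).2 hK
    have h4 : ((prin (UV α t y) UV_ne ^ K * P : FU (CV α t y)) :
        FractionalIdeal (CV α t y)⁰ (FractionRing (CV α t y))) *
        (((prin g hg0)⁻¹ : FU (CV α t y)) :
          FractionalIdeal (CV α t y)⁰ (FractionRing (CV α t y))) ≤
        (prin g hg0 : FU (CV α t y)) * (((prin g hg0)⁻¹ : FU (CV α t y)) :
          FractionalIdeal (CV α t y)⁰ (FractionRing (CV α t y))) := by gcongr
    rwa [← Units.val_mul, ← Units.val_mul, mul_inv_cancel, Units.val_one] at h4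
  have hJJ : J * J' = p ^ K * q ^ K := by
    rw [hJ, hJ', ← mul_pow, hq, mul_comm p, inv_mul_cancel_right]
    rw [mul_comm (prin g hg0), mul_assoc, mul_comm (prin (UV α t y) UV_ne ^ K * P), ← mul_assoc,
      ← mul_assoc]
    rw [mul_assoc P⁻¹, mul_assoc P⁻¹]
    rw [mul_inv_cancel (prin g hg0), one_mul, mul_comm (prin (UV α t y) UV_ne ^ K),
      inv_mul_cancel_left]
  have hmem := peel hpc hqc H hpH hqH K K J J' hJ1 hJ1' hJJ
  rw [hJ, map_mul, mk_prin, one_mul, map_inv] at hmem
  exact (H.inv_mem_iff).1 hmem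

/-- The group of points over `F(y)` is generated by the tautological point `(t, y)`. -/
theorem generated [DecidableEq V] (h2 : (2 : F) ≠ 0) (hy : Transcendental F y)
    (hgen : ∀ v : V, ∃ p d : F[X], aeval y d ≠ 0 ∧ v * aeval y d = aeval y p)
    (hroot : ∀ z : V, z ^ 2 + algebraMap F V t * z + (algebraMap F V t ^ 2 + algebraMap F V α) ≠ 0)
    (P : (WV α t y).toAffine.Point) :
    ∃ n : ℤ, P = n • (Point.some _ _ (nonsing h2 hy) : (WV α t y).toAffine.Point) := by
  rcases P with _ | ⟨x₀, y₀, h⟩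
  · exact ⟨0, by rw [zero_smul]; rfl⟩
  by_cases hy0 : y₀ = y
  · subst hy0
    refine ⟨1, ?_⟩
    rw [one_smul]
    have h1 := (WV_eq x₀ y₀).1 h.1
    have h3 : (x₀ - algebraMap F V t) * (x₀ ^ 2 + algebraMap F V t * x₀ +
        (algebraMap F V t ^ 2 + algebraMap F V α)) = 0 := by linear_combination -h1
    have h4 : x₀ = algebraMap F V t := by
      rcases mul_eq_zero.1 h3 with h5 | h5
      · exact sub_eq_zero.1 h5
      · exact (hroot x₀ h5).elim
    subst h4
    rfl
  · obtain ⟨n, hn⟩ := Subgroup.mem_zpowers_iff.1 (class_mem h2 hy hgen hroot h hy0)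
    refine ⟨n, ?_⟩
    apply Point.toClass_injective
    rw [map_zsmul, Point.toClass_some, Point.toClass_some]
    exact hn.symm

end Pool.Agent.TH958.FP
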