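import Mathlib

/-!
# Multiquadratic extensions: simultaneous eigenvectors of the sign changes
-/

set_option autoImplicit false

namespace Pool.Agent.TH958.FP

open Finset

section
variable {V K : Type} [CommRing V] [CommRing K] [Algebra V K] {ι : Type} [DecidableEq ι]
  {y : ι → K} {w : ι → V}

/-- The products of the square roots span the extension. -/
lemma span_top (hyw : ∀ i, y i ^ 2 = algebraMap V K (w i))
    (hadj : Algebra.adjoin V (Set.range y) = ⊤) :
    Submodule.span V (Set.range fun S : Finset ι => ∏ i ∈ S, y i) = ⊤ := by
  set M := Submodule.span V (Set.range fun S : Finset ι => ∏ i ∈ S, y i) with hM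
  have hy : ∀ i, ∀ m ∈ M, y i * m ∈ M := by
    intro i m hm
    induction hm using Submodule.span_induction with
    | mem x hx =>
      obtain ⟨S, rfl⟩ := hx
      by_cases hi : i ∈ S
      · have h1 : y i * ∏ j ∈ S, y j = (w i) • ∏ j ∈ S.erase i, y j := by
          rw [← mul_prod_erase S y hi, ← mul_assoc, ← sq, hyw, Algebra.smul_def]
        simp only
        rw [h1]
        exact M.smul_mem _ (Submodule.subset_span ⟨_, rfl⟩)
      · simp only
        rw [← prod_insert hi]
        exact Submodule.subset_span ⟨_, rfl⟩
    | zero => rw [mul_zero]; exact M.zero_mem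
    | add a b _ _ ha hb => rw [mul_add]; exact M.add_mem ha hb
    | smul c a _ ha => rw [mul_smul_comm]; exact M.smul_mem _ ha
  have hall : ∀ z ∈ Algebra.adjoin V (Set.range y), ∀ m ∈ M, z * m ∈ M := by
    intro z hz
    induction hz using Algebra.adjoin_induction with
    | mem x hx =>
      obtain ⟨i, rfl⟩ := hx
      exact hy i
    | algebraMap c =>
      intro m hm
      rw [← Algebra.smul_def]
      exact M.smul_mem _ hm
    | add a b _ _ ha hb =>
      intro m hm
      rw [add_mul]
      exact M.add_mem (ha m hm) (hb m hm)
    | mul a b _ _ ha hb =>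
      intro m hm
      rw [mul_assoc]
      exact ha _ (hb m hm)
  rw [eq_top_iff]
  intro z _
  have h1 : (1 : K) ∈ M := Submodule.subset_span ⟨∅, by simp⟩
  have h2 : z ∈ Algebra.adjoin V (Set.range y) := by rw [hadj]; trivial
  have h3 := hall z h2 1 h1
  rwa [mul_one] at h3

variable {σ : ι → K →ₐ[V] K}

lemma sigma_prod (hσ : ∀ j i, σ j (y i) = if i = j then -y i else y i) (j : ι) (T : Finset ι) :
    σ j (∏ i ∈ T, y i) = if j ∈ T then -∏ i ∈ T, y i else ∏ i ∈ T, y i := by
  rw [map_prod]
  split_ifs with h
  · rw [← mul_prod_erase T y h, ← mul_prod_erase T (fun i => σ j (y i)) h, hσ, if_pos rfl,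
      neg_mul]
    congr 2
    refine prod_congr rfl fun i hi => ?_
    rw [hσ, if_neg (ne_of_mem_erase hi)]
  · refine prod_congr rfl fun i hi => ?_
    rw [hσ, if_neg]
    rintro rfl
    exact h hi

end

section
variable {V K : Type} [Field V] [Field K] [Algebra V K] {ι : Type} [Fintype ι] [DecidableEq ι]
  {y : ι → K} {w : ι → V} {σ : ι → K →ₐ[V] K}

/-- A simultaneous eigenvector of the sign changes is a multiple of a product of square roots. -/
theorem eigen (h2 : (2 : V) ≠ 0) (hyw : ∀ i, y i ^ 2 = algebraMap V K (w i))
    (hadj : Algebra.adjoin V (Set.range y) = ⊤)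
    (hσ : ∀ j i, σ j (y i) = if i = j then -y i else y i) (s : Finset ι) (z : K)
    (hz : ∀ j, σ j z = if j ∈ s then -z else z) : ∃ v : V, z = algebraMap V K v * ∏ i ∈ s, y i := by
  have main : ∀ J : Finset ι, z ∈ Submodule.span V
      ((fun T : Finset ι => ∏ i ∈ T, y i) '' {T | ∀ j ∈ J, (j ∈ T ↔ j ∈ s)}) := by
    intro J
    induction J using Finset.induction_on with
    | empty =>
      have h1 : {T : Finset ι | ∀ j ∈ (∅ : Finset ι), (j ∈ T ↔ j ∈ s)} = Set.univ := by
        ext T
        simp
      rw [h1, Set.image_univ, span_top hyw hadj]
      trivial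
    | insert j J hj ih =>
      set ε : V := if j ∈ s then -1 else 1 with hε
      let L : K →ₗ[V] K := LinearMap.id + ε • (σ j).toLinearMap
      have hL : ∀ x, L x = x + ε • σ j x := fun x => rfl
      have hLz : L z = (2 : V) • z := by
        rw [hL, hz, two_smul]
        congr 1
        rw [hε]
        split_ifs <;> simp
      have hmap : ∀ x ∈ Submodule.span V
          ((fun T : Finset ι => ∏ i ∈ T, y i) '' {T | ∀ j ∈ J, (j ∈ T ↔ j ∈ s)}), L x ∈
          Submodule.span V ((fun T : Finset ι => ∏ i ∈ T, y i) ''
            {T | ∀ k ∈ insert j J, (k ∈ T ↔ k ∈ s)}) := by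
        intro x hx
        induction hx using Submodule.span_induction with
        | mem x hx =>
          obtain ⟨T, hT, rfl⟩ := hx
          rw [hL, sigma_prod hσ]
          by_cases h3 : j ∈ T ↔ j ∈ s
          · have h4 : (∏ i ∈ T, y i) + ε • (if j ∈ T then -∏ i ∈ T, y i else ∏ i ∈ T, y i) =
                (2 : V) • ∏ i ∈ T, y i := by
              rw [two_smul, hε]
              congr 1
              by_cases h5 : j ∈ T
              · rw [if_pos h5, if_pos (h3.1 h5)]
                simp
              · rw [if_neg h5, if_neg fun h => h5 (h3.2 h)]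
                simp
            rw [h4]
            refine Submodule.smul_mem _ _ (Submodule.subset_span ⟨T, ?_, rfl⟩)
            intro k hk
            rcases mem_insert.1 hk with rfl | hk
            · exact h3
            · exact hT k hk
          · have h4 : (∏ i ∈ T, y i) + ε • (if j ∈ T then -∏ i ∈ T, y i else ∏ i ∈ T, y i) = 0 := by
              rw [hε]
              by_cases h5 : j ∈ T
              · have h6 : j ∉ s := fun h => h3 ⟨fun _ => h, fun _ => h5⟩
                rw [if_pos h5, if_neg h6]
                simp
              · have h6 : j ∈ s := by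
                  by_contra h
                  exact h3 ⟨fun h' => (h5 h').elim, fun h' => (h h').elim⟩
                rw [if_neg h5, if_pos h6]
                simp
            rw [h4]
            exact Submodule.zero_mem _
        | zero => rw [map_zero]; exact Submodule.zero_mem _
        | add a b _ _ ha hb => rw [map_add]; exact Submodule.add_mem _ ha hb
        | smul c a _ ha => rw [map_smul]; exact Submodule.smul_mem _ _ ha
      have h7 := hmap z ih
      rw [hLz] at h7
      have h8 := Submodule.smul_mem _ (2 : V)⁻¹ h7
      rwa [smul_smul, inv_mul_cancel₀ h2, one_smul] at h8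
  have h1 := main univ
  have h3 : {T : Finset ι | ∀ j ∈ (univ : Finset ι), (j ∈ T ↔ j ∈ s)} = {s} := by
    ext T
    simp only [mem_univ, forall_const, Set.mem_ofPred_eq, Set.mem_singleton_iff]
    exact Finset.ext_iff.symm
  rw [h3, Set.image_singleton, Submodule.mem_span_singleton] at h1
  obtain ⟨v, hv⟩ := h1
  exact ⟨v, by rw [← hv, Algebra.smul_def]⟩

end

/-- In an abelian group with commuting involutions, a multiple by a power of two of every element is
a sum of simultaneous eigenvectors. -/
theorem sign_decomp {A ι : Type} [AddCommGroup A] (s : ι → A →+ A)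
    (hcomm : ∀ i j a, s i (s j a) = s j (s i a)) (hinv : ∀ i a, s i (s i a) = a) (l : Finset ι)
    (a : A) : (2 ^ l.card) • a ∈
      AddSubgroup.closure {b : A | ∀ i ∈ l, s i b = b ∨ s i b = -b} := by
  classical
  induction l using Finset.induction_on with
  | empty =>
    rw [card_empty, pow_zero, one_smul]
    exact AddSubgroup.subset_closure (by simp)
  | insert i l hi ih =>
    rw [card_insert_of_notMem hi]
    have main : ∀ b ∈ AddSubgroup.closure {b : A | ∀ i ∈ l, s i b = b ∨ s i b = -b},
        2 • b ∈ AddSubgroup.closure {b : A | ∀ j ∈ insert i l, s j b = b ∨ s j b = -b} := by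
      intro b hb
      induction hb using AddSubgroup.closure_induction with
      | mem x hx =>
        have h1 : 2 • x = (x + s i x) + (x - s i x) := by abel
        rw [h1]
        refine AddSubgroup.add_mem _ (AddSubgroup.subset_closure ?_)
          (AddSubgroup.subset_closure ?_)
        · intro j hj
          rcases mem_insert.1 hj with rfl | hj
          · left
            rw [map_add, hinv, add_comm]
          · rcases hx j hj with h2 | h2
            · left
              rw [map_add, hcomm, h2]
            · right
              rw [map_add, hcomm, h2, map_neg, neg_add]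
        · intro j hj
          rcases mem_insert.1 hj with rfl | hj
          · right
            rw [map_sub, hinv, neg_sub]
          · rcases hx j hj with h2 | h2
            · left
              rw [map_sub, hcomm, h2]
            · right
              rw [map_sub, hcomm, h2, map_neg]
              abel
      | zero => rw [smul_zero]; exact AddSubgroup.zero_mem _
      | add a b _ _ ha hb => rw [smul_add]; exact AddSubgroup.add_mem _ ha hb
      | neg a _ ha => rw [smul_neg]; exact AddSubgroup.neg_mem _ ha
    have h2 := main _ ih
    rwa [smul_smul, ← pow_succ'] at h2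

end Pool.Agent.TH958.FP
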