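import Mathlib

/-!
# Invertible ideals dividing a product of powers of two invertible prime ideals
-/

set_option autoImplicit false

namespace Pool.Agent.TH958.FP

open scoped nonZeroDivisors

variable {C : Type*} [CommRing C] [IsDomain C]

/-- The invertible fractional ideals. -/
abbrev FU (C : Type*) [CommRing C] [IsDomain C] := (FractionalIdeal C⁰ (FractionRing C))ˣ

lemma peel_aux {p : FU C} {p' : Ideal C} (hp : (p : FractionalIdeal C⁰ (FractionRing C)) = p')
    [hpp : p'.IsPrime] {I J : FU C} (hI : (I : FractionalIdeal C⁰ (FractionRing C)) ≤ 1)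
    (hJ : (J : FractionalIdeal C⁰ (FractionRing C)) ≤ 1) {K : FU C}
    (hK : (K : FractionalIdeal C⁰ (FractionRing C)) ≤ 1) (h : I * J = p * K) :
    ((I * p⁻¹ : FU C) : FractionalIdeal C⁰ (FractionRing C)) ≤ 1 ∨
      ((J * p⁻¹ : FU C) : FractionalIdeal C⁰ (FractionRing C)) ≤ 1 := by
  obtain ⟨I', hI'⟩ := FractionalIdeal.le_one_iff_exists_coeIdeal.1 hI
  obtain ⟨J', hJ'⟩ := FractionalIdeal.le_one_iff_exists_coeIdeal.1 hJ
  obtain ⟨K', hK'⟩ := FractionalIdeal.le_one_iff_exists_coeIdeal.1 hK
  have h1 : I' * J' ≤ p' := by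
    have h2 : ((I' * J' : Ideal C) : FractionalIdeal C⁰ (FractionRing C)) =
        ((p' * K' : Ideal C) : FractionalIdeal C⁰ (FractionRing C)) := by
      rw [FractionalIdeal.coeIdeal_mul, FractionalIdeal.coeIdeal_mul, hI', hJ', hK', ← hp,
        ← Units.val_mul, ← Units.val_mul, h]
    have h2' : I' * J' = p' * K' := FractionalIdeal.coeIdeal_injective h2
    rw [h2']
    exact Ideal.mul_le_left
  have h3 : ∀ {A : FU C} {A' : Ideal C}, (A' : FractionalIdeal C⁰ (FractionRing C)) = A →
      A' ≤ p' → ((A * p⁻¹ : FU C) : FractionalIdeal C⁰ (FractionRing C)) ≤ 1 := by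
    intro A A' hA h4
    have h5 : (A : FractionalIdeal C⁰ (FractionRing C)) ≤ p := by
      rw [← hA, hp]
      exact (FractionalIdeal.coeIdeal_le_coeIdeal _).2 h4
    have h6 : (A : FractionalIdeal C⁰ (FractionRing C)) * ((p⁻¹ : FU C) :
        FractionalIdeal C⁰ (FractionRing C)) ≤ (p : FractionalIdeal C⁰ (FractionRing C)) *
        ((p⁻¹ : FU C) : FractionalIdeal C⁰ (FractionRing C)) := by
      gcongr
    rw [← Units.val_mul, ← Units.val_mul, mul_inv_cancel, Units.val_one] at h6
    exact h6
  rcases (hpp.mul_le).1 h1 with h4 | h4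
  · exact Or.inl (h3 hI' h4)
  · exact Or.inr (h3 hJ' h4)

lemma pow_le_one' {p : FU C} (hp : (p : FractionalIdeal C⁰ (FractionRing C)) ≤ 1) (n : ℕ) :
    ((p ^ n : FU C) : FractionalIdeal C⁰ (FractionRing C)) ≤ 1 := by
  induction n with
  | zero => simp
  | succ n ih =>
    rw [pow_succ, Units.val_mul]
    exact mul_le_one' ih hp

/-- The class of an invertible ideal dividing `p ^ n * q ^ m`. -/
theorem peel {p q : FU C} {p' q' : Ideal C} (hp : (p : FractionalIdeal C⁰ (FractionRing C)) = p')
    (hq : (q : FractionalIdeal C⁰ (FractionRing C)) = q') [p'.IsPrime] [q'.IsPrime]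
    (H : Subgroup (ClassGroup C)) (hpH : ClassGroup.mk (FractionRing C) p ∈ H)
    (hqH : ClassGroup.mk (FractionRing C) q ∈ H) :
    ∀ (n m : ℕ) (I J : FU C), (I : FractionalIdeal C⁰ (FractionRing C)) ≤ 1 →
      (J : FractionalIdeal C⁰ (FractionRing C)) ≤ 1 → I * J = p ^ n * q ^ m →
      ClassGroup.mk (FractionRing C) I ∈ H := by
  have hp1 : (p : FractionalIdeal C⁰ (FractionRing C)) ≤ 1 := by
    rw [hp]
    exact FractionalIdeal.coeIdeal_le_one
  have hq1 : (q : FractionalIdeal C⁰ (FractionRing C)) ≤ 1 := by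
    rw [hq]
    exact FractionalIdeal.coeIdeal_le_one
  have main : ∀ (k n m : ℕ), n + m = k → ∀ (I J : FU C),
      (I : FractionalIdeal C⁰ (FractionRing C)) ≤ 1 →
      (J : FractionalIdeal C⁰ (FractionRing C)) ≤ 1 → I * J = p ^ n * q ^ m →
      ClassGroup.mk (FractionRing C) I ∈ H := by
    intro k
    induction k with
    | zero =>
      intro n m hnm I J hI hJ h
      have hn : n = 0 := by omega
      have hm : m = 0 := by omega
      subst hn
      subst hm
      rw [pow_zero, pow_zero, one_mul] at h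
      have h1 : (1 : FractionalIdeal C⁰ (FractionRing C)) ≤ I := by
        have h2 := congrArg (fun u : FU C => (u : FractionalIdeal C⁰ (FractionRing C))) h
        simp only [Units.val_mul, Units.val_one] at h2
        calc (1 : FractionalIdeal C⁰ (FractionRing C)) = I * J := h2.symm
          _ ≤ I * 1 := by gcongr
          _ = I := mul_one _
      have h3 : I = 1 := Units.ext (le_antisymm hI h1)
      rw [h3, map_one]
      exact H.one_mem
    | succ k ih =>
      intro n m hnm I J hI hJ h
      rcases Nat.eq_zero_or_pos n with hn | hn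
      · subst hn
        obtain ⟨m', rfl⟩ : ∃ m', m = m' + 1 := ⟨m - 1, by omega⟩
        have h1 : I * J = q * (p ^ 0 * q ^ m') := by
          rw [h, pow_succ, pow_zero, one_mul, one_mul, mul_comm]
        have hK : ((p ^ 0 * q ^ m' : FU C) : FractionalIdeal C⁰ (FractionRing C)) ≤ 1 := by
          rw [Units.val_mul]
          exact mul_le_one' (pow_le_one' hp1 0) (pow_le_one' hq1 m')
        rcases peel_aux hq hI hJ hK h1 with h2 | h2
        · have h3 := ih 0 m' (by omega) (I * q⁻¹) J h2 hJ (by
            rw [mul_right_comm, h1, mul_comm q, mul_assoc, mul_inv_cancel, mul_one])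
          have h4 : I = I * q⁻¹ * q := by rw [mul_assoc, inv_mul_cancel, mul_one]
          rw [h4, map_mul]
          exact H.mul_mem h3 hqH
        · exact ih 0 m' (by omega) I (J * q⁻¹) hI h2 (by
            rw [← mul_assoc, h1, mul_comm q, mul_assoc, mul_inv_cancel, mul_one])
      · obtain ⟨n', rfl⟩ : ∃ n', n = n' + 1 := ⟨n - 1, by omega⟩
        have h1 : I * J = p * (p ^ n' * q ^ m) := by
          rw [h, pow_succ, mul_comm (p ^ n') p, mul_assoc]
        have hK : ((p ^ n' * q ^ m : FU C) : FractionalIdeal C⁰ (FractionRing C)) ≤ 1 := by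
          rw [Units.val_mul]
          exact mul_le_one' (pow_le_one' hp1 n') (pow_le_one' hq1 m)
        rcases peel_aux hp hI hJ hK h1 with h2 | h2
        · have h3 := ih n' m (by omega) (I * p⁻¹) J h2 hJ (by
            rw [mul_right_comm, h1, mul_comm p, mul_assoc, mul_inv_cancel, mul_one])
          have h4 : I = I * p⁻¹ * p := by rw [mul_assoc, inv_mul_cancel, mul_one]
          rw [h4, map_mul]
          exact H.mul_mem h3 hpH
        · exact ih n' m (by omega) I (J * p⁻¹) hI h2 (by
            rw [← mul_assoc, h1, mul_comm p, mul_assoc, mul_inv_cancel, mul_one])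
  intro n m I J hI hJ h
  exact main (n + m) n m rfl I J hI hJ h

end Pool.Agent.TH958.FP
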