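import Pool.Agent.TH958.FP.Kummer

/-!
# Adjoining square roots to a domain
-/

set_option autoImplicit false

namespace Pool.Agent.TH958.FP

open Finset MvPolynomial

section
variable {P : Type} [CommRing P] {r : ℕ}

/-- The ring `P[Y_1, ..., Y_r]/(Y_i² - w_i)`. -/
def RR (w : Fin r → P) : Type := MvPolynomial (Fin r) P ⧸
  Ideal.span (Set.range fun i => (X i ^ 2 - C (w i) : MvPolynomial (Fin r) P))

noncomputable instance RR_commRing (w : Fin r → P) : CommRing (RR w) :=
  inferInstanceAs (CommRing (MvPolynomial (Fin r) P ⧸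
    Ideal.span (Set.range fun i => (X i ^ 2 - C (w i) : MvPolynomial (Fin r) P))))

noncomputable instance RR_algebra (w : Fin r → P) : Algebra P (RR w) :=
  inferInstanceAs (Algebra P (MvPolynomial (Fin r) P ⧸
    Ideal.span (Set.range fun i => (X i ^ 2 - C (w i) : MvPolynomial (Fin r) P))))

variable (w : Fin r → P)

/-- The quotient map. -/
noncomputable def mkR : MvPolynomial (Fin r) P →ₐ[P] RR w :=
  Ideal.Quotient.mkₐ P (Ideal.span (Set.range fun i =>
    (X i ^ 2 - C (w i) : MvPolynomial (Fin r) P)))

lemma mkR_surj : Function.Surjective (mkR w) := Ideal.Quotient.mk_surjective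

/-- The square root of `w_i`. -/
noncomputable def yR (i : Fin r) : RR w := mkR w (X i)

lemma yR_sq (i : Fin r) : yR w i ^ 2 = algebraMap P (RR w) (w i) := by
  have h : mkR w (X i ^ 2 - C (w i)) = 0 :=
    Ideal.Quotient.eq_zero_iff_mem.2 (Ideal.subset_span ⟨i, rfl⟩)
  rw [map_sub, map_pow, sub_eq_zero] at h
  rw [yR, h]
  exact (mkR w).commutes (w i)

/-- The universal property. -/
noncomputable def liftR {S : Type} [CommRing S] [Algebra P S] (z : Fin r → S)
    (hz : ∀ i, z i ^ 2 = algebraMap P S (w i)) : RR w →ₐ[P] S :=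
  Ideal.Quotient.liftₐ _ (aeval z : MvPolynomial (Fin r) P →ₐ[P] S) (by
    intro a ha
    have h : Ideal.span (Set.range fun i => (X i ^ 2 - C (w i) : MvPolynomial (Fin r) P)) ≤
        RingHom.ker ((aeval z : MvPolynomial (Fin r) P →ₐ[P] S) : MvPolynomial (Fin r) P →+* S) := by
      rw [Ideal.span_le]
      rintro _ ⟨i, rfl⟩
      simp [hz]
    exact h ha)

lemma liftR_y {S : Type} [CommRing S] [Algebra P S] (z : Fin r → S)
    (hz : ∀ i, z i ^ 2 = algebraMap P S (w i)) (i : Fin r) : liftR w z hz (yR w i) = z i := by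
  change (aeval z : MvPolynomial (Fin r) P →ₐ[P] S) (X i) = z i
  simp

lemma RR_hom_ext {S : Type} [CommRing S] [Algebra P S] {f g : RR w →ₐ[P] S}
    (h : ∀ i, f (yR w i) = g (yR w i)) : f = g := by
  have h1 : f.comp (mkR w) = g.comp (mkR w) := by
    apply MvPolynomial.algHom_ext
    intro i
    exact h i
  ext x
  obtain ⟨p, rfl⟩ := mkR_surj w x
  exact congrArg (fun k => k p) h1

lemma RR_adjoin : Algebra.adjoin P (Set.range (yR w)) = ⊤ := by
  have h : ∀ p, mkR w p ∈ Algebra.adjoin P (Set.range (yR w)) := by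
    intro p
    induction p using MvPolynomial.induction_on with
    | C a =>
      rw [← MvPolynomial.algebraMap_eq, AlgHom.commutes]
      exact Subalgebra.algebraMap_mem _ a
    | add p q hp hq => rw [map_add]; exact add_mem hp hq
    | mul_X p i hp => rw [map_mul]; exact mul_mem hp (Algebra.subset_adjoin ⟨i, rfl⟩)
  rw [eq_top_iff]
  intro x _
  obtain ⟨p, rfl⟩ := mkR_surj w x
  exact h p

/-- Every element is a combination of products of square roots. -/
lemma RR_expand (x : RR w) : ∃ c : Finset (Fin r) → P,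
    x = ∑ S : Finset (Fin r), algebraMap P (RR w) (c S) * ∏ i ∈ S, yR w i := by
  have h := span_top (V := P) (K := RR w) (y := yR w) (w := w) (yR_sq w) (RR_adjoin w)
  have hx : x ∈ Submodule.span P (Set.range fun S : Finset (Fin r) => ∏ i ∈ S, yR w i) := by
    rw [h]; trivial
  obtain ⟨c, hc⟩ := (Submodule.mem_span_range_iff_exists_fun P).1 hx
  exact ⟨c, by simp only [← hc, Algebra.smul_def]⟩

/-- The sign changes. -/
noncomputable def sg (j : Fin r) : RR w →ₐ[P] RR w :=
  liftR w (fun i => if i = j then -yR w i else yR w i) (by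
    intro i
    split_ifs
    · rw [neg_sq, yR_sq]
    · rw [yR_sq])

lemma sg_y (j i : Fin r) : sg w j (yR w i) = if i = j then -yR w i else yR w i :=
  liftR_y w _ _ i

lemma sg_sg (j : Fin r) (x : RR w) : sg w j (sg w j x) = x := by
  have h : (sg w j).comp (sg w j) = AlgHom.id P (RR w) := by
    apply RR_hom_ext
    intro i
    rw [AlgHom.comp_apply, sg_y, AlgHom.id_apply]
    split_ifs with h
    · rw [map_neg, sg_y, if_pos h, neg_neg]
    · rw [sg_y, if_neg h]
  exact congrArg (fun f => f x) h

lemma sg_inj (j : Fin r) : Function.Injective (sg w j : RR w →+* RR w) :=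
  Function.LeftInverse.injective (g := sg w j) (sg_sg w j)

end

section
variable {P : Type} [CommRing P] [IsDomain P] {r : ℕ} (w : Fin r → P)

/-- If the `w_i` are independent modulo squares then the ring is a domain. -/
theorem RR_embed (V : Type) [Field V] [Algebra P V] [IsFractionRing P V] (h2 : (2 : P) ≠ 0)
    (hs : ∀ S : Finset (Fin r), S.Nonempty → ¬ IsSquare (algebraMap P V (∏ i ∈ S, w i))) :
    ∃ (z : Fin r → AlgebraicClosure V)
      (hz : ∀ i, z i ^ 2 = algebraMap P (AlgebraicClosure V) (w i)),
      Function.Injective (liftR w z hz) := by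
  have hroot : ∀ i, ∃ z : AlgebraicClosure V, z ^ 2 = algebraMap P (AlgebraicClosure V) (w i) := by
    intro i
    obtain ⟨z, hz⟩ := IsAlgClosed.exists_pow_nat_eq (algebraMap P (AlgebraicClosure V) (w i))
      (by norm_num : 0 < 2)
    exact ⟨z, hz⟩
  choose z hz using hroot
  refine ⟨z, hz, ?_⟩
  have hinj : Function.Injective (algebraMap P V) := IsFractionRing.injective P V
  have h2V : (2 : V) ≠ 0 := by
    rw [← map_ofNat (algebraMap P V) 2]
    exact (map_ne_zero_iff _ hinj).2 h2
  rw [injective_iff_map_eq_zero]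
  intro x hx
  obtain ⟨c, rfl⟩ := RR_expand w x
  have h1 := lin_indep (V := V) (Ω := AlgebraicClosure V) (η := z)
    (w := fun i => algebraMap P V (w i)) h2V (fun i => by
      rw [hz, IsScalarTower.algebraMap_apply P V (AlgebraicClosure V)]) univ
    (fun S _ hS => by
      have := hs S hS
      rwa [map_prod] at this) (fun S => algebraMap P V (c S)) (by
      rw [powerset_univ]
      rw [map_sum] at hx
      rw [← hx]
      refine sum_congr rfl fun S _ => ?_
      rw [map_mul, map_prod, AlgHom.commutes, IsScalarTower.algebraMap_apply P V (AlgebraicClosure V)]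
      congr 1
      exact prod_congr rfl fun i _ => (liftR_y w z hz i).symm)
  refine sum_eq_zero fun S _ => ?_
  have h3 := h1 S (by rw [powerset_univ]; exact mem_univ _)
  rw [map_eq_zero_iff _ hinj] at h3
  rw [h3, map_zero, zero_mul]

theorem RR_domain (V : Type) [Field V] [Algebra P V] [IsFractionRing P V] (h2 : (2 : P) ≠ 0)
    (hs : ∀ S : Finset (Fin r), S.Nonempty → ¬ IsSquare (algebraMap P V (∏ i ∈ S, w i))) :
    IsDomain (RR w) := by
  obtain ⟨z, hz, h⟩ := RR_embed w V h2 hs
  exact Function.Injective.isDomain (liftR w z hz : RR w →+* AlgebraicClosure V) h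

theorem RR_base_inj (V : Type) [Field V] [Algebra P V] [IsFractionRing P V] (h2 : (2 : P) ≠ 0)
    (hs : ∀ S : Finset (Fin r), S.Nonempty → ¬ IsSquare (algebraMap P V (∏ i ∈ S, w i))) :
    Function.Injective (algebraMap P (RR w)) := by
  obtain ⟨z, hz, h⟩ := RR_embed w V h2 hs
  have h1 : Function.Injective (algebraMap P (AlgebraicClosure V)) := by
    rw [IsScalarTower.algebraMap_eq P V (AlgebraicClosure V)]
    exact (algebraMap V _).injective.comp (IsFractionRing.injective P V)
  intro a b hab
  apply h1
  rw [← (liftR w z hz).commutes, ← (liftR w z hz).commutes, hab]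

end

section
variable {P : Type} [CommRing P] {r : ℕ} (w : Fin r → P) [IsDomain (RR w)]
  {V K : Type} [Field V] [Algebra P V] [IsFractionRing P V] [Field K] [Algebra P K]
  [Algebra (RR w) K] [IsScalarTower P (RR w) K] [IsFractionRing (RR w) K] [Algebra V K]
  [IsScalarTower P V K]

/-- The square roots in the fraction field. -/
noncomputable def yK (K : Type) [Field K] [Algebra (RR w) K] (i : Fin r) : K :=
  algebraMap (RR w) K (yR w i)

lemma yK_sq (i : Fin r) : yK w K i ^ 2 = algebraMap V K (algebraMap P V (w i)) := by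
  rw [yK, ← map_pow, yR_sq, ← IsScalarTower.algebraMap_apply, ← IsScalarTower.algebraMap_apply]

/-- The sign changes of the fraction field. -/
noncomputable def sK (j : Fin r) : K →ₐ[V] K where
  toRingHom := IsFractionRing.map (K := K) (L := K) (sg_inj w j)
  commutes' := by
    have h : (IsFractionRing.map (K := K) (L := K) (sg_inj w j)).comp (algebraMap V K) =
        algebraMap V K := by
      apply IsLocalization.ringHom_ext (nonZeroDivisors P)
      ext p
      rw [RingHom.comp_apply, RingHom.comp_apply, RingHom.comp_apply,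
        ← IsScalarTower.algebraMap_apply, IsScalarTower.algebraMap_apply P (RR w) K]
      rw [IsFractionRing.map, IsLocalization.map_eq]
      congr 1
      exact (sg w j).commutes p
    intro v
    exact congrArg (fun f => f v) h

lemma sK_y (j i : Fin r) : sK (V := V) (K := K) w j (yK w K i) =
    if i = j then -yK w K i else yK w K i := by
  change IsFractionRing.map (K := K) (L := K) (sg_inj w j) (algebraMap (RR w) K (yR w i)) = _
  rw [IsFractionRing.map, IsLocalization.map_eq]
  change algebraMap (RR w) K (sg w j (yR w i)) = _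
  rw [sg_y, yK]
  split_ifs
  · rw [map_neg]
  · rfl

lemma K_adjoin : Algebra.adjoin V (Set.range (yK w K)) = ⊤ := by
  have hR : ∀ x : RR w, algebraMap (RR w) K x ∈ Algebra.adjoin V (Set.range (yK w K)) := by
    intro x
    obtain ⟨c, rfl⟩ := RR_expand w x
    rw [map_sum]
    refine sum_mem fun S _ => ?_
    rw [map_mul, map_prod]
    refine mul_mem ?_ (prod_mem fun i _ => Algebra.subset_adjoin ⟨i, rfl⟩)
    rw [← IsScalarTower.algebraMap_apply, IsScalarTower.algebraMap_apply P V K]
    exact Subalgebra.algebraMap_mem _ _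
  have hint : Algebra.IsIntegral V (Algebra.adjoin V (Set.range (yK w K))) := by
    apply Algebra.IsIntegral.adjoin
    rintro _ ⟨i, rfl⟩
    refine ⟨Polynomial.X ^ 2 - Polynomial.C (algebraMap P V (w i)), ?_, ?_⟩
    · exact Polynomial.monic_X_pow_sub_C _ two_ne_zero
    · rw [Polynomial.eval₂_sub, Polynomial.eval₂_pow, Polynomial.eval₂_X, Polynomial.eval₂_C,
        yK_sq (V := V) w, sub_self]
  rw [eq_top_iff]
  intro k _
  obtain ⟨a, b, -, rfl⟩ := IsFractionRing.div_surjective (A := RR w) k
  rw [div_eq_mul_inv]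
  refine mul_mem (hR a) ?_
  refine Subalgebra.inv_mem_of_algebraic (Algebra.adjoin V (Set.range (yK w K)))
    (x := ⟨_, hR b⟩) ?_
  exact (hint.isIntegral ⟨_, hR b⟩).isAlgebraic.algebraMap (A := K)

end

end Pool.Agent.TH958.FP
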