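import Pool.Agent.TH958.FP.Ufd
import Pool.Agent.TH958.FP.Peel

/-!
# The coordinate ring of `Y² = X³ + αX + y² - t³ - αt` over `F(y)`
-/

set_option autoImplicit false

namespace Pool.Agent.TH958.FP

open Polynomial WeierstrassCurve WeierstrassCurve.Affine

variable {F : Type} [Field F]

/-- The curve `Y² = X³ + αX + y² - t³ - αt` over `F[y]`. -/
noncomputable def W0 (α t : F) : WeierstrassCurve F[X] :=
  ⟨0, 0, 0, C α, X ^ 2 - C (t ^ 3 + α * t)⟩

/-- The coordinate ring over `F[y]`. -/
abbrev C0 (α t : F) : Type := (W0 α t).toAffine.CoordinateRing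

lemma W0_polynomial (α t : F) : (W0 α t).toAffine.polynomial =
    X ^ 2 - C (X ^ 3 + C (C α) * X + C (X ^ 2 - C (t ^ 3 + α * t))) := by
  rw [WeierstrassCurve.Affine.polynomial]
  simp [W0]

/-- The map `F[X] → C₀`. -/
noncomputable def inner (α t : F) : F[X] →+* C0 α t :=
  (CoordinateRing.mk (W0 α t).toAffine).comp (C.comp (mapRingHom C))

/-- The element `U = Y - y`. -/
noncomputable def U0 (α t : F) : C0 α t := CoordinateRing.mk (W0 α t).toAffine (X - C (C X))

/-- The map `F[X, U] → C₀`. -/
noncomputable def theta0 (α t : F) : F[X][X] →+* C0 α t := eval₂RingHom (inner α t) (U0 α t)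

section psi

variable (α t : F)

/-- The field `F(X, U)`. -/
abbrev LL (F : Type) [Field F] : Type := FractionRing F[X][X]

/-- The embedding of `F[X, U]`. -/
noncomputable def aL : F[X][X] →+* LL F := algebraMap _ _

/-- The coordinate `X`. -/
noncomputable def xL : LL F := aL (C X)

/-- The coordinate `U`. -/
noncomputable def uL : LL F := aL X

/-- The constants. -/
noncomputable def cL : F →+* LL F := aL.comp (C.comp C)

/-- The value of `X³ + αX - t³ - αt`. -/
noncomputable def gL : LL F := xL ^ 3 + cL α * xL - cL (t ^ 3 + α * t)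

/-- The element `y`. -/
noncomputable def etaL : LL F := (gL α t / uL - uL) / 2

lemma uL_ne : (uL : LL F) ≠ 0 := by
  unfold uL aL
  rw [Ne, map_eq_zero_iff _ (IsFractionRing.injective _ _)]
  exact X_ne_zero

lemma cL_injective : Function.Injective (cL : F →+* LL F) :=
  RingHom.injective (cL : F →+* LL F)

lemma two_ne (h2 : (2 : F) ≠ 0) : (2 : LL F) ≠ 0 := by
  have h := (map_ne_zero_iff _ (cL_injective (F := F))).2 h2
  rwa [map_ofNat] at h

/-- The map `C₀ → F(X, U)`. -/
noncomputable def psi (h2 : (2 : F) ≠ 0) : C0 α t →+* LL F :=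
  AdjoinRoot.lift (eval₂RingHom (eval₂RingHom cL (etaL α t)) xL) (uL + etaL α t) (by
    rw [W0_polynomial]
    have hu := uL_ne (F := F)
    have h2' := two_ne h2
    simp only [eval₂_sub, eval₂_pow, eval₂_X, eval₂_C, coe_eval₂RingHom, eval₂_add, eval₂_mul]
    have h1 : 2 * uL * etaL α t = gL α t - uL ^ 2 := by
      unfold etaL
      field_simp
    have h3 : gL α t = xL ^ 3 + cL α * xL - cL (t ^ 3 + α * t) := rfl
    linear_combination h1 + h3)

lemma psi_theta (h2 : (2 : F) ≠ 0) (s : F[X][X]) : psi α t h2 (theta0 α t s) = aL s := by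
  have h : (psi α t h2).comp (theta0 α t) = aL := by
    apply Polynomial.ringHom_ext
    · intro p
      have h1 : ((psi α t h2).comp (theta0 α t)).comp C = aL.comp (C : F[X] →+* F[X][X]) := by
        apply Polynomial.ringHom_ext
        · intro c
          simp only [RingHom.comp_apply, theta0, coe_eval₂RingHom, eval₂_C, inner,
            coe_mapRingHom, map_C]
          unfold psi
          rw [AdjoinRoot.lift_mk]
          simp only [eval₂_C, coe_eval₂RingHom]
          rfl
        · simp only [RingHom.comp_apply, theta0, coe_eval₂RingHom, eval₂_C, inner,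
            coe_mapRingHom, map_X]
          unfold psi
          rw [AdjoinRoot.lift_mk]
          simp only [eval₂_C, coe_eval₂RingHom, eval₂_X]
          rfl
      exact congrArg (fun g => g p) h1
    · simp only [RingHom.comp_apply, theta0, coe_eval₂RingHom, eval₂_X, U0]
      unfold psi
      rw [AdjoinRoot.lift_mk]
      simp only [eval₂_sub, eval₂_X, eval₂_C, coe_eval₂RingHom]
      rw [add_sub_cancel_right]
      rfl
  exact congrArg (fun g => g s) h

lemma theta0_injective (h2 : (2 : F) ≠ 0) : Function.Injective (theta0 α t) := by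
  intro a b hab
  have h := congrArg (psi α t h2) hab
  rw [psi_theta, psi_theta] at h
  exact IsFractionRing.injective _ _ h

end psi

end Pool.Agent.TH958.FP
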