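import Mathlib

/-!
# Maximal ideals of a one-dimensional localisation of a factorial ring
-/

set_option autoImplicit false

namespace Pool.Agent.TH958.FP

/-- Let `C` be a domain in which all nonzero primes are maximal, and `S → C` an injection of a
factorial domain such that all elements of `C` have a denominator in `M`.  A maximal ideal of `C` not
meeting `M` is up to denominators in `M` generated by one element. -/
theorem ufd_trick {C S : Type*} [CommRing C] [IsDomain C] [CommRing S] [IsDomain S]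
    [UniqueFactorizationMonoid S] (θ : S →+* C) (hθ : Function.Injective θ) (M : Submonoid S)
    (hM : ∀ c : C, ∃ m ∈ M, ∃ s : S, θ m * c = θ s)
    (hdim : ∀ p : Ideal C, p.IsPrime → p ≠ ⊥ → p.IsMaximal)
    (I : Ideal C) [hI : I.IsMaximal] (hI0 : I ≠ ⊥) (hm : ∀ m ∈ M, θ m ∉ I) :
    ∃ h ∈ I, h ≠ 0 ∧ ∀ c ∈ I, ∃ m ∈ M, θ m * c ∈ Ideal.span {h} := by
  classical
  -- a prime element in `I`
  obtain ⟨c₀, hc₀, hc₀'⟩ := Submodule.exists_mem_ne_zero_of_ne_bot hI0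
  obtain ⟨m₀, hm₀, s₀, hs₀⟩ := hM c₀
  have hm₀0 : θ m₀ ≠ 0 := fun h => hm m₀ hm₀ (by rw [h]; exact I.zero_mem)
  have hs₀0 : s₀ ≠ 0 := by
    rintro rfl
    rw [map_zero] at hs₀
    exact (mul_ne_zero hm₀0 hc₀') hs₀
  have hs₀I : θ s₀ ∈ I := by
    rw [← hs₀]
    exact I.mul_mem_left _ hc₀
  obtain ⟨f, hf, u, hfu⟩ := UniqueFactorizationMonoid.exists_prime_factors s₀ hs₀0
  have hprod : θ f.prod ∈ I := by
    have h1 : θ f.prod * θ (u : S) ∈ I := by
      rw [← map_mul, hfu]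
      exact hs₀I
    rcases hI.isPrime.mem_or_mem h1 with h2 | h2
    · exact h2
    · exact (hI.ne_top (Ideal.eq_top_of_isUnit_mem I h2 (u.isUnit.map θ))).elim
  obtain ⟨h₀, hh₀f, hh₀⟩ : ∃ h₀ ∈ f, θ h₀ ∈ I := by
    have h1 : (f.map θ).prod ∈ I := by
      rw [Multiset.prod_hom]
      exact hprod
    obtain ⟨a, ha, haI⟩ := (hI.isPrime.multiset_prod_mem_iff_exists_mem _).1 h1
    obtain ⟨b, hb, rfl⟩ := Multiset.mem_map.1 ha
    exact ⟨b, hb, haI⟩
  have hp : Prime h₀ := hf h₀ hh₀f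
  have hnot : ∀ m ∈ M, ¬ h₀ ∣ m := by
    rintro m hmM ⟨k, rfl⟩
    refine hm _ hmM ?_
    rw [map_mul]
    exact I.mul_mem_right _ hh₀
  -- the ideal
  let P : Ideal C :=
    { carrier := {c | ∃ m ∈ M, ∃ s : S, θ m * c = θ (h₀ * s)}
      add_mem' := by
        rintro a b ⟨m, hm1, s, hs⟩ ⟨n, hn1, t, ht⟩
        refine ⟨m * n, M.mul_mem hm1 hn1, n * s + m * t, ?_⟩
        simp only [map_mul, map_add] at hs ht ⊢
        linear_combination (θ n) * hs + (θ m) * ht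
      zero_mem' := ⟨1, M.one_mem, 0, by simp⟩
      smul_mem' := by
        rintro b a ⟨m, hm1, s, hs⟩
        obtain ⟨n, hn1, t, ht⟩ := hM b
        refine ⟨m * n, M.mul_mem hm1 hn1, s * t, ?_⟩
        simp only [map_mul, smul_eq_mul] at hs ht ⊢
        linear_combination (θ n * b) * hs + (θ h₀ * θ s) * ht }
  have hPmem : ∀ c, c ∈ P ↔ ∃ m ∈ M, ∃ s : S, θ m * c = θ (h₀ * s) := fun c => Iff.rfl
  have hPI : P ≤ I := by
    rintro c ⟨m, hm1, s, hs⟩
    have h1 : θ m * c ∈ I := by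
      rw [hs, map_mul]
      exact I.mul_mem_right _ hh₀
    exact (hI.isPrime.mem_or_mem h1).resolve_left (hm m hm1)
  have hPprime : P.IsPrime := by
    refine ⟨fun h => hI.ne_top (top_le_iff.1 (h ▸ hPI)), ?_⟩
    rintro a b ⟨m, hm1, s, hs⟩
    obtain ⟨n, hn1, t, ht⟩ := hM a
    obtain ⟨n', hn1', t', ht'⟩ := hM b
    have h1 : m * t * t' = h₀ * (n * n' * s) := by
      apply hθ
      simp only [map_mul] at hs ⊢
      rw [← ht, ← ht']
      linear_combination (θ n * θ n') * hs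
    have h2 : h₀ ∣ m * t * t' := ⟨_, h1⟩
    rcases hp.dvd_or_dvd h2 with h3 | ⟨k, h3⟩
    · rcases hp.dvd_or_dvd h3 with h4 | ⟨k, h4⟩
      · exact (hnot m hm1 h4).elim
      · exact Or.inl ⟨n, hn1, k, by rw [ht, h4]⟩
    · exact Or.inr ⟨n', hn1', k, by rw [ht', h3]⟩
  have hh₀0 : θ h₀ ≠ 0 := (map_ne_zero_iff θ hθ).2 hp.ne_zero
  have hP0 : P ≠ ⊥ := by
    intro h
    have h1 : θ h₀ ∈ P := ⟨1, M.one_mem, 1, by simp⟩
    rw [h, Ideal.mem_bot] at h1
    exact hh₀0 h1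
  have hPmax := hdim P hPprime hP0
  have hPeq : P = I := hPmax.eq_of_le hI.ne_top hPI
  refine ⟨θ h₀, hh₀, hh₀0, fun c hc => ?_⟩
  rw [← hPeq] at hc
  obtain ⟨m, hm1, s, hs⟩ := hc
  refine ⟨m, hm1, ?_⟩
  rw [hs, map_mul]
  exact Ideal.mul_mem_right _ _ (Ideal.mem_span_singleton_self _)

end Pool.Agent.TH958.FP
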